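import Pool.Agent.H98.R.Cub

/-!
# The reciprocity
-/

set_option autoImplicit false
set_option linter.unusedSectionVars false
set_option linter.unusedVariables false

namespace Pool.Agent.H98.R

open Pool.Agent.H98.Q Pool.Agent.Y696
open scoped NumberTheorySymbols

lemma gcd_abs {a n : ℤ} (h : IsCoprime a n) : a.gcd (n.natAbs : ℤ) = 1 := by
  rw [Int.isCoprime_iff_gcd_eq_one, Int.gcd_eq_natAbs] at h
  rw [Int.gcd_eq_natAbs, Int.natAbs_natCast]
  exact h

lemma J_sq {a n : ℤ} (h : IsCoprime a n) : J(a ^ 2 | n.natAbs) = 1 := jacobiSym.sq_one' (gcd_abs h)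

lemma J_congr {a b n : ℤ} (h : n ∣ a - b) : J(a | n.natAbs) = J(b | n.natAbs) := by
  apply jacobiSym.mod_left'
  refine ((Int.modEq_iff_dvd).2 ?_).symm
  exact Int.natAbs_dvd.2 h

lemma J_pm {a n : ℤ} (h : IsCoprime a n) : J(a | n.natAbs) = 1 ∨ J(a | n.natAbs) = -1 :=
  jacobiSym.eq_one_or_neg_one (gcd_abs h)

/-- the signed reciprocity law -/
lemma rec1 {m n : ℤ} (hm : m % 4 = 1) (hn : n % 2 = 1) :
    J(m | n.natAbs) = J(n | m.natAbs) * (if m < 0 ∧ n < 0 then -1 else 1) := by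
  have hno : Odd n.natAbs := Int.natAbs_odd.2 (Int.odd_iff.2 hn)
  have hmo : Odd m.natAbs := Int.natAbs_odd.2 (Int.odd_iff.2 (by omega))
  rcases lt_or_ge m 0 with hm0 | hm0
  · have hm3 : m.natAbs % 4 = 3 := by omega
    have hchi : ZMod.χ₄ (m.natAbs : ZMod 4) = -1 := ZMod.χ₄_nat_three_mod_four hm3
    have hmm : m = -(m.natAbs : ℤ) := by omega
    -- `J(m | |n|) = J(|n| | |m|)`
    have key : J(m | n.natAbs) = J((n.natAbs : ℤ) | m.natAbs) := by
      conv_lhs => rw [hmm]
      rw [jacobiSym.neg _ hno]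
      rcases Nat.odd_mod_four_iff.1 (Nat.odd_iff.1 hno) with h | h
      · rw [ZMod.χ₄_nat_one_mod_four h, one_mul]
        exact (jacobiSym.quadratic_reciprocity_one_mod_four h hmo).symm
      · rw [ZMod.χ₄_nat_three_mod_four h, jacobiSym.quadratic_reciprocity_three_mod_four hm3 h]
        ring
    rw [key]
    rcases lt_or_ge n 0 with hn0 | hn0
    · rw [if_pos ⟨hm0, hn0⟩]
      have hnn : n = -(n.natAbs : ℤ) := by omega
      conv_rhs => rw [hnn]
      rw [jacobiSym.neg _ hmo, hchi]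
      ring
    · rw [if_neg (by omega), mul_one]
      have hnn : n = (n.natAbs : ℤ) := by omega
      rw [← hnn]
  · rw [if_neg (by omega), mul_one]
    have hm1 : m.natAbs % 4 = 1 := by omega
    have hchi : ZMod.χ₄ (m.natAbs : ZMod 4) = 1 := ZMod.χ₄_nat_one_mod_four hm1
    have hmm : m = (m.natAbs : ℤ) := by omega
    have key : J(m | n.natAbs) = J((n.natAbs : ℤ) | m.natAbs) := by
      conv_lhs => rw [hmm]
      exact jacobiSym.quadratic_reciprocity_one_mod_four hm1 hno
    rw [key]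
    rcases lt_or_ge n 0 with hn0 | hn0
    · have hnn : n = -(n.natAbs : ℤ) := by omega
      conv_rhs => rw [hnn]
      rw [jacobiSym.neg _ hmo, hchi, one_mul]
    · have hnn : n = (n.natAbs : ℤ) := by omega
      rw [← hnn]

/-- the sign -/
lemma sgn_pos {a b c : ℤ} (hA : a ^ 2 < 2 * b * c) : 0 < c * F3 a b c := by
  have key : ∀ a b c : ℤ, a ^ 2 < 2 * b * c → 0 < c → 0 < F3 a b c := by
    intro a b c h hc
    have hbc : 0 < b * c := by nlinarith [sq_nonneg a]
    have hb : 0 < b := (pos_iff_pos_of_mul_pos hbc).2 hc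
    rcases le_or_gt 0 a with ha | ha
    · have h1 := amgm ha hb.le hc.le
      have h2 := F3_ne (a := a) (b := b) (c := c) (Or.inr (Or.inr hc.ne'))
      have h3 : 0 ≤ F3 a b c := by
        unfold F3
        linarith
      exact lt_of_le_of_ne h3 (Ne.symm h2)
    · unfold F3
      have h1 : 0 < b ^ 3 := by positivity
      have h2 : 0 < c ^ 3 := by positivity
      nlinarith [mul_pos (neg_pos.2 ha) (sub_pos.2 h), mul_pos (neg_pos.2 ha) hbc]
  have hc0 : c ≠ 0 := by
    rintro rfl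
    nlinarith [sq_nonneg a]
  rcases lt_or_gt_of_ne hc0 with hc | hc
  · have h1 := key (-a) (-b) (-c) (by nlinarith) (by linarith)
    have e : F3 (-a) (-b) (-c) = -F3 a b c := by
      unfold F3
      ring
    rw [e] at h1
    nlinarith
  · exact mul_pos hc (key a b c hA hc)

lemma sg_aux {c u v : ℤ} (h1 : 0 < c * u) (h2 : 0 < c * v) (hu : u < 0) : v < 0 := by
  have hc : c < 0 := by
    by_contra h
    push Not at h
    exact absurd h1 (not_lt.2 (mul_nonpos_of_nonneg_of_nonpos h hu.le))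
  by_contra h
  push Not at h
  exact absurd h2 (not_lt.2 (mul_nonpos_of_nonpos_of_nonneg hc.le h))

/-- a product of primes -/
lemma exists_sep (A c : ℤ) (hA : A ≠ 0) : ∃ x y : ℤ, (∀ z : ℤ, Prime z → z ∣ A → (z ∣ x ↔ z ∣ c)) ∧
    (∀ z : ℤ, Prime z → z ∣ A → (z ∣ y ↔ ¬ z ∣ c)) ∧ (∀ z : ℤ, Prime z → z ∣ x → z ∣ A) ∧
    (∀ z : ℤ, Prime z → z ∣ y → z ∣ A) := by
  have key : ∀ (S : ℕ → Prop) [DecidablePred S] (z : ℤ), Prime z →
      (z ∣ ∏ p ∈ A.natAbs.primeFactors.filter S, (p : ℤ) ↔ (z ∣ A ∧ S z.natAbs)) := by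
    intro S _ z hz
    rw [Prime.dvd_finsetProd_iff hz]
    have hzp : z.natAbs.Prime := Int.prime_iff_natAbs_prime.1 hz
    constructor
    · rintro ⟨p, hp, hzp'⟩
      rw [Finset.mem_filter, Nat.mem_primeFactors] at hp
      have h1 : z.natAbs ∣ p := by
        have := Int.natAbs_dvd_natAbs.2 hzp'
        rwa [Int.natAbs_natCast] at this
      have h2 : z.natAbs = p := (Nat.prime_dvd_prime_iff_eq hzp hp.1.1).1 h1
      refine ⟨?_, by rw [h2]; exact hp.2⟩
      rw [← Int.natAbs_dvd_natAbs, h2]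
      exact hp.1.2.1
    · rintro ⟨h1, h2⟩
      refine ⟨z.natAbs, ?_, ?_⟩
      · rw [Finset.mem_filter, Nat.mem_primeFactors]
        exact ⟨⟨hzp, Int.natAbs_dvd_natAbs.2 h1, Int.natAbs_ne_zero.2 hA⟩, h2⟩
      · rw [Int.dvd_natCast]
  have hc : ∀ z : ℤ, ((z.natAbs : ℤ) ∣ c ↔ z ∣ c) := fun z => Int.natAbs_dvd
  classical
  refine ⟨∏ p ∈ A.natAbs.primeFactors.filter (fun p : ℕ => (p : ℤ) ∣ c), (p : ℤ),
    ∏ p ∈ A.natAbs.primeFactors.filter (fun p : ℕ => ¬ (p : ℤ) ∣ c), (p : ℤ), ?_, ?_, ?_, ?_⟩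
  · intro z hz hzA
    rw [key _ z hz, hc]
    exact ⟨fun h => h.2, fun h => ⟨hzA, h⟩⟩
  · intro z hz hzA
    rw [key _ z hz, hc]
    exact ⟨fun h => h.2, fun h => ⟨hzA, h⟩⟩
  · intro z hz h
    exact ((key _ z hz).1 h).1
  · intro z hz h
    exact ((key _ z hz).1 h).1

/-- **the reciprocity** -/
theorem rec_A {d a b c : ℤ} (hd : Dd d) (hF : F3 a b c = d) (hb : 2 ∣ b) :
    ¬ d ∣ a ^ 2 - 2 * b * c ∧ J(a ^ 2 - 2 * b * c | d.natAbs) = 1 := by
  set A := a ^ 2 - 2 * b * c with hA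
  set B := 2 * c ^ 2 - a * b with hB
  set D := b ^ 2 - a * c with hD
  obtain ⟨b', hb'⟩ := hb
  have hd4 := hd.m4
  have e1 : B ^ 2 = c * d + A * D := by rw [hA, hB, hD, ← hF]; unfold F3; ring
  have e2 : 2 * B * D = A ^ 2 - a * d := by rw [hA, hB, hD, ← hF]; unfold F3; ring
  have e3 : 2 * D ^ 2 = b * d + A * B := by rw [hA, hB, hD, ← hF]; unfold F3; ring
  have e4 : F3 A B D = d ^ 2 := by rw [hA, hB, hD, ← hF]; unfold F3; ring
  have hao : a % 2 = 1 := by
    by_contra h
    have h2 : (2 : ℤ) ∣ a := by omega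
    obtain ⟨a', rfl⟩ := h2
    have : (2 : ℤ) ∣ d := ⟨4 * a' ^ 3 + b ^ 3 + 2 * c ^ 3 - 6 * a' * b * c, by
      rw [← hF]
      unfold F3
      ring⟩
    omega
  obtain ⟨a', ha'⟩ : ∃ a', a = 2 * a' + 1 := ⟨a / 2, by omega⟩
  have hA4 : A % 4 = 1 := by
    have : A = 1 + 4 * (a' ^ 2 + a' - b' * c) := by
      rw [hA, ha', hb']
      ring
    omega
  have hA0 : A ≠ 0 := by omega
  have hd0 := hd.ne
  have hsqf : ∀ z : ℤ, Prime z → ¬ z * z ∣ d := fun z hz h =>
    hz.not_isUnit (hd.prime.irreducible.squarefree z h)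
  -- `A` is not divisible by `d`
  have hdA : ¬ d ∣ A := by
    intro h
    have h1 : d ∣ B := by
      apply hd.prime.dvd_of_dvd_pow (n := 2)
      rw [e1]
      exact dvd_add (Dvd.intro_left _ rfl) (h.mul_right _)
    have h2 : d ∣ D := by
      have h3 : d ∣ 2 * D ^ 2 := by
        rw [e3]
        exact dvd_add (Dvd.intro_left _ rfl) (h.mul_right _)
      rcases hd.prime.dvd_or_dvd h3 with h4 | h4
      · exfalso
        obtain ⟨u, v, huv⟩ := hd.cop2
        have : d ∣ 1 := by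
          rw [← huv]
          exact dvd_add (h4.mul_left _) (Dvd.intro_left _ rfl)
        exact hd.prime.not_isUnit (isUnit_of_dvd_one this)
      · exact hd.prime.dvd_of_dvd_pow h4
    obtain ⟨A1, hA1⟩ := h
    obtain ⟨B1, hB1⟩ := h1
    obtain ⟨D1, hD1⟩ := h2
    have h5 : d ^ 2 * (d * F3 A1 B1 D1) = d ^ 2 * 1 := by
      rw [mul_one]
      conv_rhs => rw [← e4, hA1, hB1, hD1]
      unfold F3
      ring
    have h6 := mul_left_cancel₀ (pow_ne_zero 2 hd0) h5
    exact hd.prime.not_isUnit (IsUnit.of_mul_eq_one _ h6)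
  refine ⟨hdA, ?_⟩
  have hcdA : IsCoprime d A := (hd.prime.coprime_iff_not_dvd).2 hdA
  obtain ⟨x, y, hx, hy, hxA, hyA⟩ := exists_sep A c hA0
  set t := c * x ^ 2 + 2 * a * x * y + 2 * b * y ^ 2 with ht
  -- `t` is coprime to `A`
  have htz : ∀ z : ℤ, Prime z → z ∣ A → ¬ z ∣ t := by
    intro z hz hzA hzt
    have hz2 : ¬ z ∣ 2 := by
      intro h
      obtain ⟨k, hk⟩ : ∃ k, A = 1 + 2 * k := ⟨A / 2, by omega⟩
      apply hz.not_isUnit
      apply isUnit_of_dvd_one
      have : (1 : ℤ) = A - 2 * k := by rw [hk]; ring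
      rw [this]
      exact dvd_sub hzA (h.mul_right _)
    by_cases hc : z ∣ c
    · have h1 : z ∣ x := (hx z hz hzA).2 hc
      have h2 : ¬ z ∣ y := fun h => (hy z hz hzA).1 h hc
      have h3 : z ∣ 2 * b * y ^ 2 := by
        have e : 2 * b * y ^ 2 = t - x * (c * x + 2 * a * y) := by rw [ht]; ring
        rw [e]
        exact dvd_sub hzt (h1.mul_right _)
      rcases hz.dvd_or_dvd h3 with h4 | h4
      · rcases hz.dvd_or_dvd h4 with h5 | h5
        · exact hz2 h5
        · have h6 : z ∣ a := by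
            apply hz.dvd_of_dvd_pow (n := 2)
            have e : a ^ 2 = A + 2 * b * c := by rw [hA]; ring
            rw [e]
            exact dvd_add hzA (hc.mul_left _)
          obtain ⟨a1, ha1⟩ := h6
          obtain ⟨b1, hb1⟩ := h5
          obtain ⟨c1, hc1⟩ := hc
          apply hsqf z hz
          refine ⟨z * F3 a1 b1 c1, ?_⟩
          rw [← hF, ha1, hb1, hc1]
          unfold F3
          ring
      · exact h2 (hz.dvd_of_dvd_pow h4)
    · have h1 : ¬ z ∣ x := fun h => hc ((hx z hz hzA).1 h)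
      have h2 : z ∣ y := (hy z hz hzA).2 hc
      have h3 : z ∣ c * x ^ 2 := by
        have e : c * x ^ 2 = t - y * (2 * a * x + 2 * b * y) := by rw [ht]; ring
        rw [e]
        exact dvd_sub hzt (h2.mul_right _)
      rcases hz.dvd_or_dvd h3 with h4 | h4
      · exact hc h4
      · exact h1 (hz.dvd_of_dvd_pow h4)
  have htA : IsCoprime t A := by
    refine isCoprime_of_prime_dvd (fun h => hA0 h.2) fun z hz h1 h2 => htz z hz h2 h1
  have hty : IsCoprime t y := by
    refine isCoprime_of_prime_dvd ?_ fun z hz h1 h2 => htz z hz (hyA z hz h2) h1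
    rintro ⟨h1, h2⟩
    rw [h1] at htA
    have hA1 : IsUnit A := isCoprime_zero_left.1 htA
    -- no prime divides `A`
    obtain ⟨z, hz⟩ : ∃ z : ℤ, Prime z := ⟨2, Int.prime_two⟩
    have h3 : z ∣ A := hyA z hz (by rw [h2]; exact dvd_zero z)
    exact hz.not_isUnit (isUnit_of_dvd_unit h3 hA1)
  -- the first relation
  have r1 : J(d | A.natAbs) * J(t | A.natAbs) = 1 := by
    have h1 : A ∣ (B * x - 2 * D * y) ^ 2 - d * t := by
      refine ⟨D * x ^ 2 - 2 * A * x * y + 2 * B * y ^ 2, ?_⟩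
      rw [ht]
      linear_combination x ^ 2 * e1 - 2 * x * y * e2 + 2 * y ^ 2 * e3
    rw [← jacobiSym.mul_left, ← J_congr h1]
    apply J_sq
    have h2 : IsCoprime (d * t) A := hcdA.mul_left htA
    have h3 : IsCoprime ((B * x - 2 * D * y) ^ 2) A := by
      obtain ⟨e, he⟩ := h1
      have : (B * x - 2 * D * y) ^ 2 = d * t + A * e := by linarith
      rw [this]
      exact (IsCoprime.add_mul_left_left_iff).2 h2
    exact (IsCoprime.pow_left_iff (by norm_num)).1 h3
  by_cases ht0 : t = 0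
  · have hA1 : IsUnit A := by
      rw [ht0] at htA
      exact isCoprime_zero_left.1 htA
    have hA1' : A = 1 := by
      rcases Int.isUnit_iff.1 hA1 with h | h
      · exact h
      · omega
    rw [hA1']
    exact jacobiSym.one_left _
  -- the odd part of `t`
  obtain ⟨k, t', ht', htt⟩ : ∃ (k : ℕ) (t' : ℤ), t' % 2 = 1 ∧ t = 2 ^ k * t' := by
    obtain ⟨k, m, hm, hkm⟩ := Nat.exists_eq_two_pow_mul_odd (Int.natAbs_ne_zero.2 ht0)
    have hmo := Nat.odd_iff.1 hm
    rcases Int.natAbs_eq t with h | h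
    · refine ⟨k, m, by omega, ?_⟩
      rw [h, hkm]
      push_cast
      ring
    · refine ⟨k, -m, by omega, ?_⟩
      rw [h, hkm]
      push_cast
      ring
  have hAo : Odd A.natAbs := Int.natAbs_odd.2 (Int.odd_iff.2 (by omega))
  have r2 : J(t | A.natAbs) = J(t' | A.natAbs) := by
    rw [htt, jacobiSym.mul_left, jacobiSym.pow_left]
    rcases Nat.eq_zero_or_pos k with hk | hk
    · rw [hk, pow_zero, one_mul]
    · have h2t : (2 : ℤ) ∣ t := by
        rw [htt]
        exact (dvd_pow_self 2 hk.ne').mul_right _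
      -- `c` is even
      have hce : (2 : ℤ) ∣ c := by
        have h3 : (2 : ℤ) ∣ c * x ^ 2 := by
          have e : c * x ^ 2 = t - 2 * (a * x * y + b * y ^ 2) := by rw [ht]; ring
          rw [e]
          exact dvd_sub h2t (Dvd.intro _ rfl)
        rcases Int.prime_two.dvd_or_dvd h3 with h4 | h4
        · exact h4
        · exfalso
          have h5 := hxA 2 Int.prime_two (Int.prime_two.dvd_of_dvd_pow h4)
          omega
      obtain ⟨c', hc'⟩ := hce
      have hA8 : A % 8 = 1 := by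
        have h6 : A = 1 + 4 * (a' * (a' + 1)) - 8 * (b' * c') := by
          rw [hA, ha', hb', hc']
          ring
        have h7 : (2 : ℤ) ∣ a' * (a' + 1) := (Int.even_mul_succ_self a').two_dvd
        obtain ⟨m, hm⟩ := h7
        rw [hm] at h6
        omega
      have hJ2 : J(2 | A.natAbs) = 1 := by
        rw [jacobiSym.at_two hAo, ZMod.χ₈_nat_eq_if_mod_eight]
        have h8 : A.natAbs % 8 = 1 ∨ A.natAbs % 8 = 7 := by omega
        have h9 : ¬ A.natAbs % 2 = 0 := by omega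
        rw [if_neg h9, if_pos h8]
      rw [hJ2, one_pow, one_mul]
  have ht'A : IsCoprime t' A := by
    rw [htt] at htA
    exact htA.of_mul_left_right
  have ht'y : IsCoprime t' y := by
    rw [htt] at hty
    exact hty.of_mul_left_right
  -- `A` is a square modulo `t'`
  have r3 : J(A | t'.natAbs) = 1 := by
    have h1 : t' ∣ A * y ^ 2 - (c * x + a * y) ^ 2 := by
      refine ⟨-c * 2 ^ k, ?_⟩
      have e : A * y ^ 2 - (c * x + a * y) ^ 2 = -c * t := by
        rw [ht, hA]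
        ring
      rw [e, htt]
      ring
    have h2 : J(A * y ^ 2 | t'.natAbs) = 1 := by
      rw [J_congr h1]
      apply J_sq
      have h3 : IsCoprime (A * y ^ 2) t' := ht'A.symm.mul_left (ht'y.symm.pow_left)
      have h4 : IsCoprime ((c * x + a * y) ^ 2) t' := by
        obtain ⟨e, he⟩ := h1
        have : (c * x + a * y) ^ 2 = A * y ^ 2 + t' * (-e) := by linarith
        rw [this]
        exact (IsCoprime.add_mul_left_left_iff).2 h3
      exact (IsCoprime.pow_left_iff (by norm_num)).1 h4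
    rw [jacobiSym.mul_left, J_sq ht'y.symm, mul_one] at h2
    exact h2
  have r4 := rec1 hA4 ht'
  have r5 := rec1 hA4 (n := d) (by omega)
  rw [r3] at r4
  -- the signs
  have hs : (A < 0 ∧ t' < 0) ↔ (A < 0 ∧ d < 0) := by
    by_cases hneg : A < 0
    · have h1 : 0 < c * d := by
        rw [← hF]
        exact sgn_pos (by rw [hA] at hneg; linarith)
      have h2 : 0 < c * t := by
        have e : c * t = (c * x + a * y) ^ 2 + (-A) * y ^ 2 := by
          rw [ht, hA]
          ring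
        have h3 : c ≠ 0 := by
          rintro rfl
          rw [zero_mul] at h1
          exact lt_irrefl _ h1
        have h4 : 0 ≤ c * t := by
          rw [e]
          have h5 : 0 ≤ (-A) * y ^ 2 := mul_nonneg (by linarith) (sq_nonneg y)
          linarith [sq_nonneg (c * x + a * y)]
        exact lt_of_le_of_ne h4 (Ne.symm (mul_ne_zero h3 ht0))
      have h3 : 0 < c * t' := by
        rw [htt] at h2
        have h4 : (0 : ℤ) < 2 ^ k := by positivity
        have h5 : c * (2 ^ k * t') = 2 ^ k * (c * t') := by ring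
        rw [h5] at h2
        exact (pos_iff_pos_of_mul_pos h2).1 h4
      exact ⟨fun h => ⟨hneg, sg_aux h3 h1 h.2⟩, fun h => ⟨hneg, sg_aux h1 h3 h.2⟩⟩
    · constructor
      · rintro ⟨h, -⟩
        exact absurd h hneg
      · rintro ⟨h, -⟩
        exact absurd h hneg
  rw [r2] at r1
  by_cases hneg : A < 0 ∧ d < 0
  · rw [if_pos (hs.2 hneg)] at r4
    rw [if_pos hneg] at r5
    rw [r5]
    have h1 : J(t' | A.natAbs) = -1 := by linarith
    rw [h1] at r1
    linarith
  · rw [if_neg (fun h => hneg (hs.1 h))] at r4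
    rw [if_neg hneg, mul_one] at r5
    rw [r5]
    have h1 : J(t' | A.natAbs) = 1 := by linarith
    rw [h1, mul_one] at r1
    exact r1

/-- **the square** -/
theorem rec_D {d a b c : ℤ} (hd : Dd d) (hF : F3 a b c = d) (hb : 2 ∣ b) :
    ∃ s : ℤ, ¬ d ∣ s ∧ d ∣ s ^ 2 - (b ^ 2 - a * c) := by
  obtain ⟨h1, h2⟩ := rec_A hd hF hb
  have hp : Fact d.natAbs.Prime := ⟨hd.pr⟩
  obtain ⟨r, hr⟩ := ZMod.isSquare_of_jacobiSym_eq_one h2
  set A := a ^ 2 - 2 * b * c with hA
  set B := 2 * c ^ 2 - a * b with hB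
  set D := b ^ 2 - a * c with hD
  have e1 : B ^ 2 = c * d + A * D := by rw [hA, hB, hD, ← hF]; unfold F3; ring
  have e2 : 2 * B * D = A ^ 2 - a * d := by rw [hA, hB, hD, ← hF]; unfold F3; ring
  have hdz : ((d : ℤ) : ZMod d.natAbs) = 0 :=
    (ZMod.intCast_zmod_eq_zero_iff_dvd _ _).2 (Int.natAbs_dvd.2 dvd_rfl)
  have hA0 : ((A : ℤ) : ZMod d.natAbs) ≠ 0 := by
    intro h
    exact h1 (Int.natAbs_dvd.1 ((ZMod.intCast_zmod_eq_zero_iff_dvd _ _).1 h))
  have hr0 : r ≠ 0 := by
    rintro rfl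
    apply hA0
    rw [hr, mul_zero]
  have e3 : ((B : ℤ) : ZMod d.natAbs) ^ 2 = (A : ZMod d.natAbs) * D := by
    have := congrArg (fun z : ℤ => (z : ZMod d.natAbs)) e1
    push_cast at this
    rw [hdz, mul_zero, zero_add] at this
    exact this
  have e4 : 2 * (B : ZMod d.natAbs) * D = (A : ZMod d.natAbs) ^ 2 := by
    have := congrArg (fun z : ℤ => (z : ZMod d.natAbs)) e2
    push_cast at this
    rw [hdz, mul_zero, sub_zero] at this
    exact this
  have hB0 : ((B : ℤ) : ZMod d.natAbs) ≠ 0 := by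
    intro h
    rw [h, mul_zero, zero_mul] at e4
    exact hA0 (pow_eq_zero_iff two_ne_zero |>.1 e4.symm)
  obtain ⟨s, hs⟩ := ZMod.intCast_surjective ((B : ZMod d.natAbs) / r)
  refine ⟨s, ?_, ?_⟩
  · intro h
    have h5 : ((s : ℤ) : ZMod d.natAbs) = 0 :=
      (ZMod.intCast_zmod_eq_zero_iff_dvd _ _).2 (Int.natAbs_dvd.2 h)
    rw [h5] at hs
    exact div_ne_zero hB0 hr0 hs.symm
  · apply Int.natAbs_dvd.1
    rw [← ZMod.intCast_zmod_eq_zero_iff_dvd]
    push_cast
    rw [hs, div_pow, e3, hr]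
    field_simp
    ring

end Pool.Agent.H98.R
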