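import Pool.Agent.H98.Q.Five

/-!
# Squares in the residue field
-/

set_option autoImplicit false
set_option linter.unusedSectionVars false
set_option linter.unusedVariables false

open NumberField IsDedekindDomain

namespace Pool.Agent.H98.R

open Pool.Agent.H98.Q

/-- squares in a finite field -/
theorem sq_fin {κ : Type*} [Field κ] [Fintype κ] {q : ℕ} [Fact q.Prime] [CharP κ q] (hq2 : q ≠ 2)
    (hq3 : q % 3 = 2) {w : κ} (hw : w ^ 2 + w + 1 = 0) {b e s : ℤ} (hs : (s : κ) ≠ 0)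
    (h : (s : κ) ^ 2 = b ^ 2 + b * e + e ^ 2) : ∃ r : κ, r ≠ 0 ∧ r ^ 2 = 2 * (b - e * w ^ 2) := by
  have hqp : q.Prime := Fact.out
  have h20 : (2 : κ) ≠ 0 := by
    intro h
    have h3 : ((2 : ℕ) : κ) = 0 := by exact_mod_cast h
    rw [CharP.cast_eq_zero_iff κ q] at h3
    exact hq2 ((Nat.prime_dvd_prime_iff_eq hqp Nat.prime_two).1 h3)
  have h30 : (3 : κ) ≠ 0 := by
    intro h
    have h3 : ((3 : ℕ) : κ) = 0 := by exact_mod_cast h
    rw [CharP.cast_eq_zero_iff κ q] at h3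
    have := (Nat.prime_dvd_prime_iff_eq hqp Nat.prime_three).1 h3
    omega
  have hw3 : w ^ 3 = 1 := by linear_combination (w - 1) * hw
  have hw0 : w ≠ 0 := by
    rintro rfl
    norm_num at hw
  have hw1 : w ≠ 1 := by
    rintro rfl
    apply h30
    linear_combination hw
  obtain ⟨k, hk⟩ : ∃ k, q = 3 * k + 2 := ⟨q / 3, by omega⟩
  have hwq : w ^ q = w ^ 2 := by
    rw [hk, pow_add, pow_mul, hw3, one_pow, one_mul]
  have hwq2 : w ^ (q ^ 2) = w := by
    rw [pow_two, pow_mul, hwq, ← pow_mul, mul_comm, pow_mul, hwq]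
    linear_combination w * hw3
  obtain ⟨n, -, hn⟩ := FiniteField.card κ q
  have hcard := FiniteField.pow_card w
  -- the degree is even
  obtain ⟨j, hj⟩ : ∃ j : ℕ, (n : ℕ) = 2 * j := by
    by_contra hcon
    obtain ⟨j, hj⟩ : ∃ j : ℕ, (n : ℕ) = 2 * j + 1 := by
      refine ⟨(n : ℕ) / 2, ?_⟩
      by_contra h
      exact hcon ⟨(n : ℕ) / 2, by omega⟩
    have hit : ∀ j : ℕ, w ^ (q ^ (2 * j)) = w := by
      intro j
      induction j with
      | zero => simp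
      | succ j ih =>
        have : q ^ (2 * (j + 1)) = q ^ (2 * j) * q ^ 2 := by ring
        rw [this, pow_mul, ih, hwq2]
    rw [hn, hj, pow_succ, pow_mul, hit, hwq] at hcard
    apply hw1
    apply mul_left_cancel₀ hw0
    linear_combination hcard
  have hint : ∀ z : ℤ, ((z : κ)) ^ q = z := by
    intro z
    have := map_intCast (frobenius κ q) z
    exact this
  set z : κ := 2 * (b - e * w ^ 2) with hz
  have hzq : z ^ q = 2 * (b - e * w) := by
    have h2q : (2 : κ) ^ q = 2 := by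
      have := hint 2
      exact_mod_cast this
    rw [hz, mul_pow, sub_pow_char, mul_pow, ← pow_mul, mul_comm 2 q, pow_mul, hwq, hint, hint, h2q]
    linear_combination (-2 * e * w) * hw3
  have hzz : z ^ (q + 1) = (2 * s) ^ 2 := by
    rw [pow_succ, hzq, hz, mul_pow, h]
    linear_combination (4 * e ^ 2) * hw3 - (4 * b * e) * hw
  have hs2 : (2 * s : κ) ≠ 0 := mul_ne_zero h20 hs
  have hz0 : z ≠ 0 := by
    intro h0
    rw [h0, zero_pow (by omega)] at hzz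
    exact pow_ne_zero 2 hs2 hzz.symm
  have hodd : q % 2 = 1 := hqp.eq_two_or_odd.resolve_left hq2
  obtain ⟨h', hh'⟩ : ∃ h', q = 2 * h' + 1 := ⟨q / 2, by omega⟩
  have hs1 : (2 * s : κ) ^ (2 * h') = 1 := by
    apply mul_right_cancel₀ hs2
    rw [one_mul, ← pow_succ, ← hh']
    have := hint (2 * s)
    push_cast at this
    exact this
  -- the exponent
  obtain ⟨m, hm⟩ : (q ^ 2 - 1) ∣ ((q ^ 2) ^ j - 1) := Nat.sub_one_dvd_pow_sub_one _ _
  have hq1 : 1 ≤ q ^ 2 := Nat.one_le_pow _ _ hqp.pos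
  have hq1' : 1 ≤ (q ^ 2) ^ j := Nat.one_le_pow _ _ (by omega)
  have hcd : Fintype.card κ = 2 * ((q + 1) * h' * m) + 1 := by
    rw [hn, hj, pow_mul]
    have e1 : q ^ 2 - 1 = (q + 1) * (2 * h') := by
      have : q ^ 2 = (q + 1) * (2 * h') + 1 := by
        conv_lhs => rw [pow_two]
        have : q * q = (q + 1) * (q - 1) + 1 := by
          obtain ⟨t, rfl⟩ : ∃ t, q = t + 1 := ⟨q - 1, by omega⟩
          simp
          ring
        rw [this]
        congr 2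
        omega
      omega
    rw [e1] at hm
    have e2 : (q + 1) * (2 * h') * m = 2 * ((q + 1) * h' * m) := by ring
    omega
  have hsq : IsSquare z := by
    have hch : ringChar κ ≠ 2 := by
      rw [ringChar.eq κ q]
      exact hq2
    rw [FiniteField.isSquare_iff hch hz0]
    have e3 : Fintype.card κ / 2 = (q + 1) * h' * m := by omega
    rw [e3, mul_assoc, pow_mul, hzz, ← pow_mul, ← mul_assoc, pow_mul, hs1, one_pow]
  obtain ⟨r, hr⟩ := hsq
  refine ⟨r, ?_, ?_⟩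
  · rintro rfl
    rw [mul_zero] at hr
    exact hz0 hr
  · rw [pow_two, ← hr]

/-- squares modulo the prime -/
theorem exists_res {N : Type} [Field N] [NumberField N] {d : ℤ} (hd : Dd d) (hp : Pd d N) {w : 𝓞 N}
    (hw : w ^ 2 + w + 1 = 0) {a b c x s : ℤ} (h1 : d ∣ a + b * x + c * x ^ 2) (hs : ¬ d ∣ s)
    (h2 : d ∣ s ^ 2 - (b ^ 2 - a * c)) : ∃ r : 𝓞 N, r ∉ (pd hd hp).asIdeal ∧
      r ^ 2 - 2 * (b - c * x * w ^ 2) ∈ (pd hd hp).asIdeal := by
  have hFq : Fact d.natAbs.Prime := ⟨hd.pr⟩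
  have hmax : (pd hd hp).asIdeal.IsMaximal := (pd hd hp).isMaximal
  let _ : Field (𝓞 N ⧸ (pd hd hp).asIdeal) := Ideal.Quotient.field _
  have hfin : Finite (𝓞 N ⧸ (pd hd hp).asIdeal) :=
    Ideal.finiteQuotientOfFreeOfNeBot _ (pd hd hp).ne_bot
  let _ : Fintype (𝓞 N ⧸ (pd hd hp).asIdeal) := Fintype.ofFinite _
  have hdm : ∀ z : ℤ, d ∣ z → ((z : ℤ) : 𝓞 N ⧸ (pd hd hp).asIdeal) = 0 := by
    rintro z ⟨e, rfl⟩
    rw [← map_intCast (Ideal.Quotient.mk (pd hd hp).asIdeal), Ideal.Quotient.eq_zero_iff_mem]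
    rw [mem_pd]
    push_cast
    exact Dvd.intro _ rfl
  have hchar : CharP (𝓞 N ⧸ (pd hd hp).asIdeal) d.natAbs := by
    have h3 : ((d.natAbs : ℕ) : 𝓞 N ⧸ (pd hd hp).asIdeal) = 0 := by
      have := hdm (d.natAbs : ℤ) (Int.dvd_natAbs.2 dvd_rfl)
      rwa [Int.cast_natCast] at this
    have h4 : ringChar (𝓞 N ⧸ (pd hd hp).asIdeal) ∣ d.natAbs := (ringChar.spec _ _).1 h3
    have h5 : ringChar (𝓞 N ⧸ (pd hd hp).asIdeal) ≠ 1 := CharP.ringChar_ne_one
    have h6 := (Nat.dvd_prime hd.pr).1 h4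
    have h7 := h6.resolve_left h5
    rw [← h7]
    exact ringChar.charP _
  have hsn : ((s : ℤ) : 𝓞 N ⧸ (pd hd hp).asIdeal) ≠ 0 := by
    intro h0
    have h3 : IsCoprime d s := hd.prime.coprime_iff_not_dvd.2 hs
    obtain ⟨u, v, huv⟩ := h3
    have h4 := congrArg (fun z : ℤ => (z : 𝓞 N ⧸ (pd hd hp).asIdeal)) huv
    simp only [Int.cast_add, Int.cast_mul, Int.cast_one] at h4
    rw [h0, hdm d dvd_rfl, mul_zero, mul_zero, add_zero] at h4
    exact zero_ne_one h4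
  have hrel : ((s : ℤ) : 𝓞 N ⧸ (pd hd hp).asIdeal) ^ 2 = (b : 𝓞 N ⧸ (pd hd hp).asIdeal) ^ 2 +
      (b : 𝓞 N ⧸ (pd hd hp).asIdeal) * ((c * x : ℤ) : 𝓞 N ⧸ (pd hd hp).asIdeal) +
      ((c * x : ℤ) : 𝓞 N ⧸ (pd hd hp).asIdeal) ^ 2 := by
    have h3 : d ∣ s ^ 2 - (b ^ 2 + b * (c * x) + (c * x) ^ 2) := by
      have e : s ^ 2 - (b ^ 2 + b * (c * x) + (c * x) ^ 2) = (s ^ 2 - (b ^ 2 - a * c)) -
          c * (a + b * x + c * x ^ 2) := by ring
      rw [e]
      exact dvd_sub h2 (h1.mul_left _)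
    have h4 := hdm _ h3
    push_cast at h4 ⊢
    linear_combination h4
  have hwk : (Ideal.Quotient.mk (pd hd hp).asIdeal w) ^ 2 + Ideal.Quotient.mk (pd hd hp).asIdeal w + 1 = 0 := by
    rw [← map_pow, ← map_add, ← map_one (Ideal.Quotient.mk (pd hd hp).asIdeal), ← map_add, hw, map_zero]
  have hq2 : d.natAbs ≠ 2 := by
    have := hd.m4
    omega
  obtain ⟨r, hr0, hr⟩ := sq_fin (q := d.natAbs) hq2 hd.m3 hwk hsn hrel
  obtain ⟨r, rfl⟩ := Ideal.Quotient.mk_surjective r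
  refine ⟨r, fun h => hr0 (Ideal.Quotient.eq_zero_iff_mem.2 h), ?_⟩
  rw [← Ideal.Quotient.eq_zero_iff_mem, map_sub, map_pow, hr]
  simp only [map_mul, map_sub, map_pow, map_intCast, map_ofNat]
  push_cast
  ring

end Pool.Agent.H98.R
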