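import Pool.Agent.H98.R.Sel
import Pool.Agent.H98.R.Rec
import Pool.Agent.H98.R.Res

/-!
# The anti-invariant points
-/

set_option autoImplicit false
set_option linter.unusedSectionVars false
set_option linter.unusedVariables false

open NumberField IsDedekindDomain WithZero

namespace Pool.Agent.H98.R

open Pool.Agent.Y696
open Pool.Agent.K7.H70.SM
open Pool.Agent.H98.Q
open Pool.Agent.H98.A (val_one exp_rep even_of even_one v_sq le_exp_of_lt)
open scoped Classical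

section gen
variable {K : Type} [Field K]

/-- elements of unit norm -/
lemma ev_unit {v : Valuation K ℤᵐ⁰} {u : Cb K} (ha : v u.a ≤ 1) (hb : v u.b ≤ 1) (hc : v u.c ≤ 1)
    (hN : v u.N = 1) : EvV v u := by
  refine ⟨1, fun α hα => ⟨0, ?_⟩⟩
  have hα1 : v (α ^ 3 - 2) < 1 := by
    refine lt_of_le_of_lt hα ?_
    rw [← exp_zero, exp_lt_exp]
    norm_num
  have hα2 : v α ≤ 1 := le_of_near v hα1.le
  have h2 := v_two_le v
  have hev : ∀ x : Cb K, v x.a ≤ 1 → v x.b ≤ 1 → v x.c ≤ 1 → v (x.ev α) ≤ 1 := by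
    intro x h1 h2 h3
    rw [Cb.ev]
    refine v.map_add_le (v.map_add_le h1 ?_) ?_
    · rw [map_mul]
      exact mul_le_one' h2 hα2
    · rw [map_mul, map_pow]
      exact mul_le_one' h3 (pow_le_one' hα2 2)
  have h3 := Cb.ev_mul u u.adj α
  rw [Cb.mul_adj] at h3
  have e1 : (Cb.C u.N).ev α = u.N := by simp [Cb.ev]
  rw [e1] at h3
  have hA : v u.adj.a ≤ 1 ∧ v u.adj.b ≤ 1 ∧ v u.adj.c ≤ 1 := by
    refine ⟨?_, ?_, ?_⟩
    · show v (u.a ^ 2 - 2 * u.b * u.c) ≤ 1
      refine v.map_sub_le ?_ ?_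
      · rw [map_pow]
        exact pow_le_one' ha 2
      · rw [map_mul, map_mul]
        exact mul_le_one' (mul_le_one' h2 hb) hc
    · show v (2 * u.c ^ 2 - u.a * u.b) ≤ 1
      refine v.map_sub_le ?_ ?_
      · rw [map_mul, map_pow]
        exact mul_le_one' h2 (pow_le_one' hc 2)
      · rw [map_mul]
        exact mul_le_one' ha hb
    · show v (u.b ^ 2 - u.a * u.c) ≤ 1
      refine v.map_sub_le ?_ ?_
      · rw [map_pow]
        exact pow_le_one' hb 2
      · rw [map_mul]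
        exact mul_le_one' ha hc
  have h4 : v (u.ev α * u.adj.ev α) = 1 := by
    rw [← hN]
    refine Valuation.map_eq_of_sub_lt v ?_
    rw [hN, h3, map_mul]
    refine mul_lt_one_of_nonneg_of_lt_one_left zero_le hα1 ?_
    refine v.map_add_le (v.map_add_le ?_ ?_) ?_
    · rw [map_mul]
      exact mul_le_one' hb hA.2.2
    · rw [map_mul]
      exact mul_le_one' hc hA.2.1
    · rw [map_mul, map_mul]
      exact mul_le_one' (mul_le_one' hc hA.2.2) hα2
  rw [map_mul] at h4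
  have h5 := hev u ha hb hc
  have h6 := hev u.adj hA.1 hA.2.1 hA.2.2
  rw [mul_zero, exp_zero]
  refine le_antisymm h5 ?_
  by_contra hcon
  push Not at hcon
  have h7 : v (u.ev α) * v (u.adj.ev α) < 1 := mul_lt_one_of_nonneg_of_lt_one_left zero_le hcon h6
  rw [h4] at h7
  exact lt_irrefl _ h7

/-- approximations of the cube root -/
lemma approx {d x : ℤ} (hd : Dd d) (hx : d ∣ x ^ 3 - 2) (n : ℕ) :
    ∃ y : ℤ, d ^ (n + 1) ∣ y ^ 3 - 2 ∧ d ∣ y - x := by
  induction n with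
  | zero => exact ⟨x, by rwa [pow_one], by rw [sub_self]; exact dvd_zero d⟩
  | succ n ih =>
    obtain ⟨y, ⟨e, he⟩, h2⟩ := ih
    have hy3 : d ∣ y ^ 3 - 2 := by
      rw [he, pow_succ']
      exact ⟨d ^ n * e, by ring⟩
    have c2 : IsCoprime d 2 := by
      obtain ⟨u, v, h⟩ := hd.cop2
      exact ⟨v, u, by linarith⟩
    have c3 : IsCoprime d 3 := by
      obtain ⟨u, v, h⟩ := hd.cop3
      exact ⟨v, u, by linarith⟩
    obtain ⟨u, v, huv⟩ : IsCoprime d (3 * y ^ 2) := c3.mul_right ((cop_x c2 hy3).pow_right)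
    refine ⟨y + d ^ (n + 1) * (-(e * v)), ?_, ?_⟩
    · refine ⟨e * u + d ^ n * (3 * y * (e * v) ^ 2 - d ^ (n + 1) * (e * v) ^ 3), ?_⟩
      have e1 : (y + d ^ (n + 1) * (-(e * v))) ^ 3 - 2 = (y ^ 3 - 2) - 3 * y ^ 2 * (d ^ (n + 1) * (e * v)) +
          3 * y * (d ^ (n + 1) * (e * v)) ^ 2 - (d ^ (n + 1) * (e * v)) ^ 3 := by ring
      rw [e1, he]
      linear_combination (-(d ^ (n + 1) * e)) * huv
    · obtain ⟨m, hm⟩ := h2
      exact ⟨m + d ^ n * (-(e * v)), by rw [pow_succ']; linear_combination hm⟩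

lemma eq_of_sq (h2 : ∀ x : K, x ^ 3 ≠ 2) {u r : Cb K} (h : u * u = r * r) : u = r ∨ u = -r := by
  by_contra hcon
  push Not at hcon
  have h1 : u - r ≠ 0 := sub_ne_zero.2 hcon.1
  have h3 : u + r ≠ 0 := fun h => hcon.2 (eq_neg_of_add_eq_zero_left h)
  have h4 : (u - r) * (u + r) = 0 := by linear_combination h
  have h5 := congrArg Cb.N h4
  rw [Cb.N_mul] at h5
  have h6 : (0 : Cb K).N = 0 := by simp [Cb.N]
  rw [h6] at h5
  exact mul_ne_zero (Cb.N_ne h2 h1) (Cb.N_ne h2 h3) h5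

end gen

section loc
variable {K : Type} [Field K]

/-- the data -/
structure Dt (v : Valuation K ℤᵐ⁰) (d a b c x s : ℤ) : Prop where
  vi : ∀ z : ℤ, v (z : K) ≤ 1
  v1 : ∀ z : ℤ, ¬ d ∣ z → v (z : K) = 1
  vd : v (d : K) = exp (-1 : ℤ)
  hx : d ∣ x ^ 3 - 2
  h1 : d ∣ a + b * x + c * x ^ 2
  hs : ¬ d ∣ s
  h2 : d ∣ s ^ 2 - (b ^ 2 - a * c)
  n2 : ¬ d ∣ 2
  n3 : ¬ d ∣ 3
  nx : ¬ d ∣ x
  F : F3 a b c = d

variable {v : Valuation K ℤᵐ⁰} {d a b c x s : ℤ}

lemma Dt.dv (D : Dt v d a b c x s) {z : ℤ} (h : d ∣ z) : v (z : K) ≤ exp (-1 : ℤ) := by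
  obtain ⟨e, rfl⟩ := h
  rw [Int.cast_mul, map_mul, D.vd]
  exact mul_le_of_le_one_right' (D.vi e)

lemma Dt.dvn (D : Dt v d a b c x s) {z : ℤ} {n : ℕ} (h : d ^ n ∣ z) : v (z : K) ≤ exp (-(n : ℤ)) := by
  obtain ⟨e, rfl⟩ := h
  rw [Int.cast_mul, Int.cast_pow, map_mul, map_pow, D.vd]
  refine (mul_le_of_le_one_right' (D.vi e)).trans (le_of_eq ?_)
  rw [← exp_nsmul]
  congr 1
  simp

lemma Dt.two (D : Dt v d a b c x s) : v (2 : K) = 1 := by
  have := D.v1 2 D.n2
  exact_mod_cast this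

lemma Dt.three (D : Dt v d a b c x s) : v (3 : K) = 1 := by
  have := D.v1 3 D.n3
  exact_mod_cast this

lemma Dt.x1 (D : Dt v d a b c x s) : v (x : K) = 1 := D.v1 x D.nx

lemma one_of_mul {y z : K} (hy : v y ≤ 1) (hz : v z ≤ 1) (h : v (y * z) = 1) : v y = 1 := by
  refine le_antisymm hy ?_
  by_contra hcon
  push Not at hcon
  have h7 : v y * v z < 1 := mul_lt_one_of_nonneg_of_lt_one_left zero_le hcon hz
  rw [← map_mul, h] at h7
  exact lt_irrefl _ h7

lemma v_cub {u : K} (hu : u ^ 2 + u + 1 = 0) : v u = 1 := by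
  have h3 : u ^ 3 = 1 := by linear_combination (u - 1) * hu
  have h2 := congrArg v h3
  rw [map_pow, map_one] at h2
  refine le_antisymm ((pow_le_one_iff three_ne_zero).1 h2.le) ?_
  exact (one_le_pow_iff_of_nonneg zero_le three_ne_zero).1 h2.ge

lemma Dt.u1 (D : Dt v d a b c x s) {u : K} (hu : u ^ 2 + u + 1 = 0) : v (u - 1) = 1 := by
  have h1 := v_cub (v := v) hu
  have h2 : v (u + 2) ≤ 1 := v.map_add_le h1.le D.two.le
  refine one_of_mul (v.map_sub_le h1.le (by rw [map_one])) h2 ?_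
  have e : (u - 1) * (u + 2) = -3 := by linear_combination hu
  rw [e, Valuation.map_neg, D.three]

lemma Dt.z1 (D : Dt v d a b c x s) {u : K} (hu : u ^ 2 + u + 1 = 0) :
    v ((b : K) - c * x * u ^ 2) = 1 := by
  have h1 := v_cub (v := v) hu
  have hle : ∀ t : K, v t = 1 → v ((b : K) - c * x * t) ≤ 1 := by
    intro t ht
    refine v.map_sub_le (D.vi b) ?_
    rw [map_mul, ht, mul_one, map_mul]
    exact mul_le_one' (D.vi c) (D.vi x)
  refine one_of_mul (hle (u ^ 2) (by rw [map_pow, h1, one_pow])) (hle u h1) ?_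
  have e : ((b : K) - c * x * u ^ 2) * (b - c * x * u) = (s : K) ^ 2 -
      ((s ^ 2 - (b ^ 2 - a * c) - c * (a + b * x + c * x ^ 2) : ℤ) : K) := by
    push_cast
    linear_combination ((c : K) ^ 2 * x ^ 2 * (u - 1) - b * c * x) * hu
  have hs : v ((s : K) ^ 2) = 1 := by rw [map_pow, D.v1 s D.hs, one_pow]
  rw [e, Valuation.map_sub_eq_of_lt_left v, hs]
  rw [hs]
  refine lt_of_le_of_lt (D.dv (dvd_sub D.h2 (D.h1.mul_left _))) ?_
  rw [← exp_zero, exp_lt_exp]
  norm_num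

lemma Dt.kap (D : Dt v d a b c x s) {u β X : K} (hu : u ^ 2 + u + 1 = 0) (hβ : v (β - u * x) < 1)
    (hX : v (X + 2 * d * x) ≤ exp (-2 : ℤ)) : v (X + 2 * d * β) = exp (-1 : ℤ) := by
  have e : X + 2 * d * β = 2 * d * x * (u - 1) + ((X + 2 * d * x) + 2 * d * (β - u * x)) := by ring
  have h1 : v (2 * d * x * (u - 1)) = exp (-1 : ℤ) := by
    rw [map_mul, map_mul, map_mul, D.two, D.vd, D.x1, D.u1 hu, one_mul, mul_one, mul_one]
  rw [e, Valuation.map_add_eq_of_lt_left v, h1]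
  rw [h1]
  refine lt_of_le_of_lt (v.map_add _ _) (max_lt ?_ ?_)
  · refine lt_of_le_of_lt hX ?_
    rw [exp_lt_exp]
    norm_num
  · rw [map_mul, map_mul, D.two, D.vd, one_mul]
    exact mul_lt_of_lt_one_right exp_pos hβ

lemma Dt.eta (D : Dt v d a b c x s) {u β : K} (hu : u ^ 2 + u + 1 = 0) (hβ : v (β - u * x) < 1) :
    v ((a : K) + b * β + c * β ^ 2) = 1 := by
  have hux : v (u * x) = 1 := by rw [map_mul, v_cub hu, D.x1, one_mul]
  have hβ1 : v β ≤ 1 := by
    have e : β = u * x + (β - u * x) := by ring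
    rw [e]
    exact v.map_add_le hux.le hβ.le
  have e : (a : K) + b * β + c * β ^ 2 = x * (u - 1) * (b - c * x * u ^ 2) +
      (((a + b * x + c * x ^ 2 : ℤ) : K) + (β - u * x) * (b + c * (β + u * x))) := by
    push_cast
    linear_combination ((c : K) * x ^ 2 * (u - 1)) * hu
  have h1 : v ((x : K) * (u - 1) * (b - c * x * u ^ 2)) = 1 := by
    rw [map_mul, map_mul, D.x1, D.u1 hu, D.z1 hu, one_mul, one_mul]
  rw [e, Valuation.map_add_eq_of_lt_left v, h1]
  rw [h1]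
  refine lt_of_le_of_lt (v.map_add _ _) (max_lt ?_ ?_)
  · refine lt_of_le_of_lt (D.dv D.h1) ?_
    rw [← exp_zero, exp_lt_exp]
    norm_num
  · rw [map_mul]
    refine mul_lt_one_of_nonneg_of_lt_one_left zero_le hβ ?_
    refine v.map_add_le (D.vi b) ?_
    rw [map_mul]
    exact mul_le_one' (D.vi c) (v.map_add_le hβ1 hux.le)

/-- the class of a point -/
def kp (X : K) (d : ℤ) : Cb K := ⟨X, 2 * d, 0⟩

/-- the class of the generator -/
def k0 (d a b c : ℤ) : Cb K := ⟨d * a, d * b, d * c⟩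

lemma kp_N (X : K) : (kp X d).N = X ^ 3 + 16 * (d : K) ^ 3 := by
  simp [kp, Cb.N]
  ring

lemma k0_N (hF : F3 a b c = d) : (k0 (K := K) d a b c).N = (d : K) ^ 4 := by
  have h := congrArg (fun z : ℤ => (z : K)) hF
  unfold F3 at h
  push_cast at h
  simp only [k0, Cb.N]
  linear_combination (d : K) ^ 3 * h

lemma kp_ev (X α : K) : (kp X d).ev α = X + 2 * d * α := by simp [kp, Cb.ev]

lemma k0_ev (α : K) : (k0 (K := K) d a b c).ev α = d * (a + b * α + c * α ^ 2) := by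
  simp only [k0, Cb.ev]
  ring

/-- at the place above `d` -/
theorem Dt.ev (D : Dt v d a b c x s) {w X Y : K} (hw : w ^ 2 + w + 1 = 0)
    (hXY : Y ^ 2 = X ^ 3 + 16 * (d : K) ^ 3) (hY : Y ≠ 0) (hX : v (X + 2 * d * x) ≤ exp (-2 : ℤ)) :
    EvV v (kp X d * k0 d a b c) := by
  have hd0 : (d : K) ≠ 0 := by
    intro h
    have := D.vd
    rw [h, map_zero] at this
    exact exp_ne_zero this.symm
  have hN1 : (kp X d).N ≠ 0 := by
    rw [kp_N, ← hXY]
    exact pow_ne_zero 2 hY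
  have hN2 : (k0 (K := K) d a b c).N ≠ 0 := by
    rw [k0_N D.F]
    exact pow_ne_zero 4 hd0
  obtain ⟨n0, hn0⟩ := ev_mul_val v hN1 hN2
  obtain ⟨k, hk⟩ := exp_lb v (pow_ne_zero 2 hY)
  have hw2 : (w ^ 2) ^ 2 + w ^ 2 + 1 = 0 := by linear_combination (w ^ 2 - w + 1) * hw
  have hw3 : w ^ 3 = 1 := by linear_combination (w - 1) * hw
  refine ⟨n0 + k + 2, fun α hα => ?_⟩
  rw [hn0 α (hα.trans (by rw [exp_le_exp]; push_cast; omega)), kp_ev, k0_ev, map_mul, D.vd]
  have hα1 : v (α ^ 3 - 2) < exp (-1 : ℤ) := by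
    refine lt_of_le_of_lt hα ?_
    rw [exp_lt_exp]
    push_cast
    omega
  have hα2 : v α ≤ 1 := le_of_near v (hα1.le.trans (by rw [← exp_zero, exp_le_exp]; norm_num))
  -- the three classes
  have hcl : v (α - x) < 1 ∨ v (α - w * x) < 1 ∨ v (α - w ^ 2 * x) < 1 := by
    by_contra hcon
    push Not at hcon
    obtain ⟨c1, c2, c3⟩ := hcon
    have e : (α - x) * (α - w * x) * (α - w ^ 2 * x) = (α ^ 3 - 2) - ((x ^ 3 - 2 : ℤ) : K) := by
      push_cast
      linear_combination (-x * α ^ 2 + x ^ 2 * α * w - x ^ 3 * (w - 1)) * hw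
    have h1 : v ((α - x) * (α - w * x) * (α - w ^ 2 * x)) < 1 := by
      rw [e]
      refine lt_of_le_of_lt (v.map_sub _ _) (max_lt (hα1.trans ?_) (lt_of_le_of_lt (D.dv D.hx) ?_))
      · rw [← exp_zero, exp_lt_exp]
        norm_num
      · rw [← exp_zero, exp_lt_exp]
        norm_num
    rw [map_mul, map_mul] at h1
    exact absurd h1 (not_lt.2 (one_le_mul (one_le_mul c1 c2) c3))
  rcases hcl with h | h | h
  · have hb1 : v (w * α - w * x) < 1 := by
      rw [← mul_sub, map_mul, v_cub hw, one_mul]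
      exact h
    have hb2 : v (w ^ 2 * α - w ^ 2 * x) < 1 := by
      rw [← mul_sub, map_mul, v_cub hw2, one_mul]
      exact h
    have k1 := D.kap hw hb1 hX
    have k2 := D.kap hw2 hb2 hX
    have e1 := D.eta hw hb1
    have e2 := D.eta hw2 hb2
    obtain ⟨l, hl⟩ := Pool.Agent.H98.A.exp_rep ((v.ne_zero_iff).2 hY)
    have hA : v (X + 2 * d * α) * exp (-2 : ℤ) = exp (2 * l) := by
      have e : (X + 2 * d * α) * (X + 2 * d * (w * α)) * (X + 2 * d * (w ^ 2 * α)) =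
          Y ^ 2 + 8 * d ^ 3 * (α ^ 3 - 2) := by
        rw [hXY]
        linear_combination (2 * d * α * X ^ 2 + 4 * d ^ 2 * α ^ 2 * X * w +
          8 * d ^ 3 * α ^ 3 * (w - 1)) * hw
      have h8 : v (8 * d ^ 3 * (α ^ 3 - 2)) < v (Y ^ 2) := by
        refine lt_of_lt_of_le ?_ hk
        have h7 : v (8 * (d : K) ^ 3) ≤ 1 := by
          have : (8 * (d : K) ^ 3) = ((8 * d ^ 3 : ℤ) : K) := by push_cast; rfl
          rw [this]
          exact D.vi _
        rw [map_mul]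
        refine lt_of_le_of_lt (mul_le_mul' h7 hα) ?_
        rw [one_mul, exp_lt_exp]
        push_cast
        omega
      have h9 := congrArg v e
      rw [Valuation.map_add_eq_of_lt_left v h8, map_mul, map_mul, k1, k2, map_pow, hl, mul_assoc,
        ← exp_add, ← exp_nsmul] at h9
      have e5 : (-1 : ℤ) + -1 = -2 := by norm_num
      rw [e5] at h9
      rw [h9]
      congr 1
    have hB : v ((a : K) + b * α + c * α ^ 2) = exp (-1 : ℤ) := by
      have hFk : (a : K) ^ 3 + 2 * b ^ 3 + 4 * c ^ 3 - 6 * a * b * c = d := by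
        have h := congrArg (fun z : ℤ => (z : K)) D.F
        unfold F3 at h
        push_cast at h
        exact h
      have e : ((a : K) + b * α + c * α ^ 2) * ((a : K) + b * (w * α) + c * (w * α) ^ 2) *
          ((a : K) + b * (w ^ 2 * α) + c * (w ^ 2 * α) ^ 2) =
          d + (α ^ 3 - 2) * (((b ^ 3 + 2 * c ^ 3 - 3 * a * b * c : ℤ) : K) + (c : K) ^ 3 * α ^ 3) := by
        have e' : ((a : K) + b * α + c * α ^ 2) * ((a : K) + b * (w * α) + c * (w * α) ^ 2) *
          ((a : K) + b * (w ^ 2 * α) + c * (w ^ 2 * α) ^ 2) = (a : K) ^ 3 + b ^ 3 * α ^ 3 +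
            c ^ 3 * α ^ 6 - 3 * a * b * c * α ^ 3 := by
          have e6 : w ^ 2 = -w - 1 := by linear_combination hw
          simp only [mul_pow, e6]
          ring_nf
          simp only [show w ^ 3 = 1 from hw3, e6]
          ring
        rw [e', ← hFk]
        push_cast
        ring
      have h8 : v ((α ^ 3 - 2) * (((b ^ 3 + 2 * c ^ 3 - 3 * a * b * c : ℤ) : K) + (c : K) ^ 3 * α ^ 3)) <
          v (d : K) := by
        rw [D.vd, map_mul]
        refine lt_of_le_of_lt (mul_le_mul' le_rfl ?_) (by rw [mul_one]; exact hα1)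
        refine v.map_add_le (D.vi _) ?_
        rw [map_mul, map_pow, map_pow]
        exact mul_le_one' (pow_le_one' (D.vi c) 3) (pow_le_one' hα2 3)
      have h9 := congrArg v e
      rw [Valuation.map_add_eq_of_lt_left v h8, map_mul, map_mul, e1, e2, mul_one, mul_one, D.vd] at h9
      exact h9
    refine ⟨l, ?_⟩
    rw [hB, ← exp_add]
    exact hA
  · refine ⟨-1, ?_⟩
    rw [D.kap hw h hX, D.eta hw h, mul_one, ← exp_add]
    norm_num
  · refine ⟨-1, ?_⟩
    rw [D.kap hw2 h hX, D.eta hw2 h, mul_one, ← exp_add]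
    norm_num

end loc

end Pool.Agent.H98.R
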