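import Pool.Agent.H98.R.Ant

/-!
# The anti-invariant points are divisible by two
-/

set_option autoImplicit false
set_option linter.unusedSectionVars false
set_option linter.unusedVariables false

open NumberField IsDedekindDomain WithZero

namespace Pool.Agent.H98.R

open Pool.Agent.Y696
open Pool.Agent.K7.H70.SM
open Pool.Agent.H98.Q
open Pool.Agent.H98.A (val_one)
open scoped Classical

section
variable {E : Type} [Field E] [NumberField E] {d : ℤ}

/-- the valuation is invariant -/
theorem vd_aut (hd : Dd d) (hp : Pd d E) (σ : E ≃+* E) (x : E) : vd hd hp (σ x) = vd hd hp x := by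
  obtain ⟨v', hv'⟩ := val_aut σ (pd hd hp)
  have h : (d : 𝓞 E) ∈ v'.asIdeal := by
    by_contra h
    have h1 := val_d h
    have h2 := hv' (d : E)
    rw [map_intCast, h1] at h2
    have h3 := vd_d hd hp
    unfold vd at h3
    rw [h2, ← exp_zero] at h3
    exact absurd (exp_injective h3) (by norm_num)
  have h' := pd_uniq hd hp h
  subst h'
  exact hv' x

/-- the data over a number field -/
theorem dt_of (hd : Dd d) (hp : Pd d E) {a b c x s : ℤ} (hx : d ∣ x ^ 3 - 2)
    (h1 : d ∣ a + b * x + c * x ^ 2) (hs : ¬ d ∣ s) (h2 : d ∣ s ^ 2 - (b ^ 2 - a * c))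
    (hF : F3 a b c = d) : Dt (vd hd hp) d a b c x s := by
  have hvi : ∀ z : ℤ, vd hd hp (z : E) ≤ 1 := by
    intro z
    have e : algebraMap (𝓞 E) E (z : 𝓞 E) = (z : E) := map_intCast (algebraMap (𝓞 E) E) z
    rw [← e]
    exact (pd hd hp).valuation_le_one _
  have hvd := vd_d hd hp
  have hlt : vd hd hp (d : E) < 1 := by
    rw [hvd, ← exp_zero, exp_lt_exp]
    norm_num
  have n2 : ¬ d ∣ 2 := by
    intro h
    obtain ⟨u, v, huv⟩ := hd.cop2
    have : d ∣ 1 := by
      rw [← huv]
      exact dvd_add (h.mul_left _) (Dvd.intro_left _ rfl)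
    exact hd.prime.not_isUnit (isUnit_of_dvd_one this)
  have n3 : ¬ d ∣ 3 := by
    intro h
    obtain ⟨u, v, huv⟩ := hd.cop3
    have : d ∣ 1 := by
      rw [← huv]
      exact dvd_add (h.mul_left _) (Dvd.intro_left _ rfl)
    exact hd.prime.not_isUnit (isUnit_of_dvd_one this)
  refine ⟨hvi, ?_, hvd, hx, h1, hs, h2, n2, n3, ?_, hF⟩
  · intro z hz
    refine le_antisymm (hvi z) ?_
    by_contra hcon
    push Not at hcon
    obtain ⟨u, t, hut⟩ := hd.prime.coprime_iff_not_dvd.2 hz
    have h3 : ((u * d + t * z : ℤ) : E) = 1 := by rw [hut, Int.cast_one]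
    have h4 : vd hd hp ((u * d + t * z : ℤ) : E) < 1 := by
      rw [Int.cast_add, Int.cast_mul, Int.cast_mul]
      refine lt_of_le_of_lt ((vd hd hp).map_add _ _) (max_lt ?_ ?_)
      · rw [map_mul, mul_comm]
        exact mul_lt_one_of_nonneg_of_lt_one_left zero_le hlt (hvi u)
      · rw [map_mul, mul_comm]
        exact mul_lt_one_of_nonneg_of_lt_one_left zero_le hcon (hvi t)
    rw [h3, map_one] at h4
    exact lt_irrefl _ h4
  · intro h
    apply n2
    have e : (2 : ℤ) = x ^ 2 * x - (x ^ 3 - 2) := by ring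
    rw [e]
    exact dvd_sub (h.mul_left _) hx

end

section
variable {k E : Type} [Field k] [NumberField k] [Field E] [NumberField E] [Algebra k E] {d : ℤ}

/-- the Selmer condition -/
theorem pa_anti (hE : Gz E) (hd : Dd d) (hp : Pd d E) {w : E} (hw : w ^ 2 + w + 1 = 0) {X Y : E}
    (hXY : Y ^ 2 = X ^ 3 + 16 * (d : E) ^ 3) {a b c x s : ℤ} (D : Dt (vd hd hp) d a b c x s)
    (hb : 2 ∣ b) (hX : vd hd hp (X + 2 * d * x) ≤ exp (-2 : ℤ)) :
    PA (kp X d * k0 (K := E) d a b c) := by
  have hY := no2 hE hd hXY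
  have hd0 : (d : E) ≠ 0 := d_neF hd
  have hN1 : (kp X d).N ≠ 0 := by
    rw [kp_N, ← hXY]
    exact pow_ne_zero 2 hY
  have hN2 : (k0 (K := E) d a b c).N ≠ 0 := by
    rw [k0_N D.F]
    exact pow_ne_zero 4 hd0
  have hint : ∀ (v : HeightOneSpectrum (𝓞 E)) (z : ℤ), v.valuation E (z : E) ≤ 1 := by
    intro v z
    have e : algebraMap (𝓞 E) E (z : 𝓞 E) = (z : E) := map_intCast (algebraMap (𝓞 E) E) z
    rw [← e]
    exact v.valuation_le_one _
  have hk0 : k0 (K := E) d a b c = ⟨((d * a : ℤ) : E), ((d * b : ℤ) : E), ((d * c : ℤ) : E)⟩ := by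
    unfold k0
    push_cast
    rfl
  refine ⟨by rw [Cb.N_mul]; exact mul_ne_zero hN1 hN2, ⟨Y * d ^ 2, ?_⟩, fun v hv => ?_, fun v hv => ?_⟩
  · rw [Cb.N_mul, kp_N, k0_N D.F, ← hXY]
    ring
  · have e2 : v.valuation E 2 = 1 := by
      have : v.valuation E ((2 : ℕ) : E) = 1 := val_one fun h => hv (by
        have e : ((6 : ℕ) : 𝓞 E) = ((2 : ℕ) : 𝓞 E) * 3 := by push_cast; norm_num
        rw [e]
        exact Ideal.mul_mem_right _ _ h)
      exact_mod_cast this
    have e3 : v.valuation E 3 = 1 := by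
      have : v.valuation E ((3 : ℕ) : E) = 1 := val_one fun h => hv (by
        have e : ((6 : ℕ) : 𝓞 E) = ((3 : ℕ) : 𝓞 E) * 2 := by push_cast; norm_num
        rw [e]
        exact Ideal.mul_mem_right _ _ h)
      exact_mod_cast this
    by_cases h : (d : 𝓞 E) ∈ v.asIdeal
    · have hv5 := pd_uniq hd hp h
      subst hv5
      exact D.ev hw hXY hY hX
    · have hvd := val_d h
      refine EvV.mul hN1 hN2 (ev_good hXY hY e2 e3 hvd) (ev_unit ?_ ?_ ?_ ?_)
      · rw [hk0]
        exact hint v _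
      · rw [hk0]
        exact hint v _
      · rw [hk0]
        exact hint v _
      · rw [k0_N D.F, map_pow, hvd, one_pow]
  · have hdv : (d : 𝓞 E) ∉ v.asIdeal := by
      intro h
      obtain ⟨m, hm⟩ := hd.odd
      apply v.isPrime.ne_top
      rw [Ideal.eq_top_iff_one]
      have e : (1 : 𝓞 E) = (d : 𝓞 E) - ((2 : ℕ) : 𝓞 E) * (2 * m) := by
        rw [hm]
        push_cast
        ring
      rw [e]
      exact Ideal.sub_mem _ h (Ideal.mul_mem_right _ _ hv)
    have hvd := val_d hdv
    have h2 := hE.two v hv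
    have h2l : v.valuation E 2 < 1 := by
      rw [h2, ← exp_zero, exp_lt_exp]
      norm_num
    refine LvV.mul h2l (lv_two hXY hY h2 hvd) ⟨1, by simp, ?_⟩
    rw [one_pow, mul_one]
    refine ⟨?_, ?_, ?_⟩
    · show v.valuation E ((d : E) * a) = 1
      rw [map_mul, hvd, one_mul]
      -- `a` is odd
      obtain ⟨b', hb'⟩ := hb
      obtain ⟨m, hm⟩ := hd.odd
      obtain ⟨a', ha'⟩ : ∃ a', a = 2 * a' + 1 := by
        refine ⟨a / 2, ?_⟩
        by_contra hcon
        have h3 : a = 2 * (a / 2) := by omega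
        have h4 := D.F
        unfold F3 at h4
        rw [h3, hm] at h4
        have h5 : (2 : ℤ) ∣ 1 := ⟨4 * (a / 2) ^ 3 + b ^ 3 + 2 * c ^ 3 - 6 * (a / 2) * b * c - 2 * m, by
          linear_combination -h4⟩
        norm_num at h5
      rw [ha']
      push_cast
      rw [add_comm]
      refine Valuation.map_one_add_of_lt (v := v.valuation E) (x := 2 * (a' : E)) ?_
      rw [map_mul]
      exact mul_lt_one_of_nonneg_of_lt_one_left zero_le h2l (hint v _)
    · show v.valuation E ((d : E) * b) < 1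
      obtain ⟨b', hb'⟩ := hb
      rw [map_mul, hvd, one_mul, hb']
      push_cast
      rw [map_mul]
      exact mul_lt_one_of_nonneg_of_lt_one_left zero_le h2l (hint v _)
    · rw [hk0]
      exact hint v _

/-- **no anti-invariant point in the class of `-2 d x`** -/
theorem anti_aux (hE : Gz E) (hd : Dd d) (hpk : Pd d k) (hp : Pd d E) {w : 𝓞 k}
    (hw : w ^ 2 + w + 1 = 0) (σ : E ≃ₐ[k] E) {X Y : E} (hXY : Y ^ 2 = X ^ 3 + 16 * (d : E) ^ 3)
    (hσX : σ X = X) (hσY : σ Y = -Y) {a b c x s : ℤ} (D : Dt (vd hd hp) d a b c x s)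
    (hb : 2 ∣ b) (hX : vd hd hp (X + 2 * d * x) ≤ exp (-2 : ℤ)) : False := by
  set W : E := algebraMap k E (w : k) with hWd
  have hwk : (w : k) ^ 2 + (w : k) + 1 = 0 := by
    have := congrArg (algebraMap (𝓞 k) k) hw
    rw [map_add, map_add, map_pow, map_one, map_zero] at this
    exact this
  have hW : W ^ 2 + W + 1 = 0 := by
    rw [hWd, ← map_pow, ← map_add, ← map_one (algebraMap k E), ← map_add, hwk, map_zero]
  have hW3 : W ^ 3 = 1 := by linear_combination (W - 1) * hW
  have hY := no2 hE hd hXY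
  have hd0 : (d : E) ≠ 0 := d_neF hd
  obtain ⟨r, hr⟩ := hE.sq _ (pa_anti hE hd hp hW hXY D hb hX)
  set v := vd hd hp with hv
  have hNr : r.N ^ 2 = (Y * d ^ 2) ^ 2 := by
    rw [pow_two r.N, ← Cb.N_mul, ← hr, Cb.N_mul, kp_N, k0_N D.F, ← hXY]
    ring
  have hz : Cb.map (σ : E →+* E) (kp X d * k0 (K := E) d a b c) = kp X d * k0 (K := E) d a b c := by
    rw [map_mul]
    congr 1
    · ext
      · exact hσX
      · show σ (2 * d) = 2 * d
        rw [map_mul, map_ofNat, map_intCast]
      · exact map_zero σ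
    · ext
      · show σ (d * a) = d * a
        rw [map_mul, map_intCast, map_intCast]
      · show σ (d * b) = d * b
        rw [map_mul, map_intCast, map_intCast]
      · show σ (d * c) = d * c
        rw [map_mul, map_intCast, map_intCast]
  have hrr : Cb.map (σ : E →+* E) r * Cb.map (σ : E →+* E) r = r * r := by
    rw [← map_mul, ← hr, hz]
  rcases eq_of_sq (fun x => no_cube_of_two hE.two x) hrr with h | h
  · -- the invariant case
    have h1 : σ r.N = r.N := by
      have := Cb.N_map (σ : E →+* E) r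
      rw [h] at this
      exact this.symm
    have h2 : σ (Y * d ^ 2) = -(Y * d ^ 2) := by
      rw [map_mul, hσY, map_pow, map_intCast]
      ring
    have h3 : r.N = 0 := by
      have h20 : (2 : E) ≠ 0 := two_ne_zero
      apply mul_left_cancel₀ h20
      rcases sq_eq_sq_iff_eq_or_eq_neg.1 hNr with h4 | h4
      · rw [h4] at h1
        rw [h4]
        linear_combination h2 - h1
      · rw [h4, map_neg] at h1
        rw [h4]
        linear_combination -h1 - h2
    rw [h3, zero_pow two_ne_zero] at hNr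
    exact pow_ne_zero 2 (mul_ne_zero hY (pow_ne_zero 2 hd0)) hNr.symm
  · -- the anti-invariant case
    obtain ⟨k1, hk1⟩ := ev_bd v ⟨r.b * r.c + r.c * r.b, r.c * r.c, 0⟩
    obtain ⟨k2, hk2⟩ := ev_bd v ⟨(kp X d).b * (k0 (K := E) d a b c).c +
      (kp X d).c * (k0 (K := E) d a b c).b, (kp X d).c * (k0 (K := E) d a b c).c, 0⟩
    obtain ⟨y, hy1, hy2⟩ := approx hd D.hx (k1 + k2 + 2)
    set α : E := W * y with hα
    have hα3 : α ^ 3 - 2 = ((y ^ 3 - 2 : ℤ) : E) := by
      rw [hα, mul_pow, hW3]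
      push_cast
      ring
    have hαv : v (α ^ 3 - 2) ≤ exp (-((k1 + k2 + 3 : ℕ) : ℤ)) := by
      rw [hα3]
      exact D.dvn hy1
    have hα1 : v α ≤ 1 := le_of_near v (hαv.trans (by rw [← exp_zero, exp_le_exp]; push_cast; omega))
    have hσα : σ α = α := by
      rw [hα, map_mul, map_intCast, hWd, AlgEquiv.commutes]
    set R : E := r.ev α with hR
    have hσR : σ R = -R := by
      have h1 : σ R = (Cb.map (σ : E →+* E) r).ev (σ α) := by
        rw [hR]
        simp [Cb.ev]
      rw [h1, h, hσα, hR]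
      simp [Cb.ev]
      ring
    have e1 := Cb.ev_mul r r α
    have e2 := Cb.ev_mul (kp X d) (k0 (K := E) d a b c) α
    rw [← hr] at e1
    have h3v : ∀ z : E, v z ≤ exp ((k1 : ℤ)) ∨ v z ≤ exp (k2 : ℤ) → v ((α ^ 3 - 2) * z) ≤ exp (-3 : ℤ) := by
      intro z hz
      have hz' : v z ≤ exp ((k1 + k2 : ℕ) : ℤ) := by
        rcases hz with hz | hz
        · refine hz.trans ?_
          rw [exp_le_exp]
          push_cast
          omega
        · refine hz.trans ?_
          rw [exp_le_exp]
          push_cast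
          omega
      rw [map_mul]
      refine (mul_le_mul' hαv hz').trans ?_
      rw [← exp_add, exp_le_exp]
      push_cast
      omega
    have f1 : v (R * R - (kp X d * k0 (K := E) d a b c).ev α) ≤ exp (-3 : ℤ) := by
      rw [e1]
      apply h3v
      left
      have := hk1 α hα1
      simpa [Cb.ev] using this
    have f2 : v ((kp X d).ev α * (k0 (K := E) d a b c).ev α -
        (kp X d * k0 (K := E) d a b c).ev α) ≤ exp (-3 : ℤ) := by
      rw [e2]
      apply h3v
      right
      have := hk2 α hα1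
      simpa [Cb.ev] using this
    -- the square in the residue field
    obtain ⟨r0, hr0, hr1⟩ := exists_res hd hpk hw D.h1 D.hs D.h2
    set ρ : E := algebraMap k E (r0 : k) with hρ
    have hσρ : σ ρ = ρ := by rw [hρ, AlgEquiv.commutes]
    have hintk : ∀ t : 𝓞 k, v (algebraMap k E (t : k)) ≤ 1 := by
      intro t
      have e : algebraMap k E (t : k) = algebraMap (𝓞 E) E (algebraMap (𝓞 k) (𝓞 E) t) := rfl
      rw [e]
      exact (pd hd hp).valuation_le_one _
    have hdiv : ∀ t : 𝓞 k, t ∈ (pd hd hpk).asIdeal → v (algebraMap k E (t : k)) ≤ exp (-1 : ℤ) := by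
      intro t ht
      rw [mem_pd] at ht
      obtain ⟨t', rfl⟩ := ht
      have e : algebraMap k E ((d * t' : 𝓞 k) : k) = d * algebraMap k E (t' : k) := by
        rw [coedm, map_mul, map_intCast]
      rw [e, map_mul, D.vd]
      exact mul_le_of_le_one_right' (hintk t')
    have hρ1 : v ρ = 1 := by
      refine le_antisymm (hintk r0) ?_
      by_contra hcon
      push Not at hcon
      obtain ⟨t, i, hi, hti⟩ := (pd hd hpk).isMaximal.exists_inv hr0
      have h1 : algebraMap k E (t : k) * ρ + algebraMap k E (i : k) = 1 := by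
        have := congrArg (fun z : 𝓞 k => algebraMap k E (z : k)) hti
        rw [hρ, ← map_mul, ← map_add, ← map_one (algebraMap k E)]
        exact this
      have h2 : v (algebraMap k E (t : k) * ρ + algebraMap k E (i : k)) < 1 := by
        refine lt_of_le_of_lt (v.map_add _ _) (max_lt ?_ ?_)
        · rw [map_mul, mul_comm]
          exact mul_lt_one_of_nonneg_of_lt_one_left zero_le hcon (hintk t)
        · refine lt_of_le_of_lt (hdiv i hi) ?_
          rw [← exp_zero, exp_lt_exp]
          norm_num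
      rw [h1, map_one] at h2
      exact lt_irrefl _ h2
    have hε3 : v (ρ ^ 2 - 2 * (b - c * x * W ^ 2)) ≤ exp (-1 : ℤ) := by
      have e : ρ ^ 2 - 2 * (b - c * x * W ^ 2) =
          algebraMap k E ((r0 ^ 2 - 2 * (b - c * x * w ^ 2) : 𝓞 k) : k) := by
        have e' : ((r0 ^ 2 - 2 * (b - c * x * w ^ 2) : 𝓞 k) : k) =
            (r0 : k) ^ 2 - 2 * ((b : k) - c * x * (w : k) ^ 2) := by
          show algebraMap (𝓞 k) k (r0 ^ 2 - 2 * (b - c * x * w ^ 2)) = (algebraMap (𝓞 k) k r0) ^ 2 -
            2 * ((b : k) - c * x * (algebraMap (𝓞 k) k w) ^ 2)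
          simp only [map_sub, map_mul, map_pow, map_intCast, map_ofNat]
        rw [e']
        simp only [map_sub, map_mul, map_pow, map_intCast, map_ofNat, hρ, hWd]
      rw [e]
      exact hdiv _ hr1
    set T : E := d * x * (W - 1) * ρ with hT
    have hTv : v T = exp (-1 : ℤ) := by
      rw [hT, map_mul, map_mul, map_mul, D.vd, D.x1, D.u1 hW, hρ1, mul_one, mul_one, mul_one]
    have hσT : σ T = T := by
      rw [hT, map_mul, map_mul, map_mul, hσρ, map_intCast, map_intCast, map_sub, map_one, hWd,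
        AlgEquiv.commutes]
    have hWv := v_cub (v := v) hW
    have hyx : v ((y : E) - x) ≤ exp (-1 : ℤ) := by
      have := D.dv hy2
      rw [Int.cast_sub] at this
      exact this
    have he12 : (exp (-2 : ℤ) : ℤᵐ⁰) ≤ exp (-1 : ℤ) := by rw [exp_le_exp]; norm_num
    have hε1 : v ((X + 2 * d * x) + 2 * d * W * (y - x)) ≤ exp (-2 : ℤ) := by
      refine v.map_add_le hX ?_
      rw [map_mul, map_mul, map_mul, D.two, D.vd, hWv, one_mul, mul_one]
      refine (mul_le_mul' le_rfl hyx).trans ?_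
      rw [← exp_add]
      norm_num
    have hε2 : v (((a + b * x + c * x ^ 2 : ℤ) : E) + W * (y - x) * (b + c * W * (y + x))) ≤
        exp (-1 : ℤ) := by
      refine v.map_add_le (D.dv D.h1) ?_
      rw [map_mul, map_mul, hWv, one_mul]
      refine (mul_le_mul' hyx ?_).trans (le_of_eq (mul_one _))
      refine v.map_add_le (D.vi b) ?_
      rw [map_mul, map_mul, hWv, mul_one]
      exact mul_le_one' (D.vi c) (v.map_add_le (D.vi y) (D.vi x))
    have hu1 := D.u1 hW
    have hz1 := D.z1 hW
    have f3 : v ((kp X d).ev α * (k0 (K := E) d a b c).ev α - T ^ 2) ≤ exp (-3 : ℤ) := by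
      set ε1 : E := (X + 2 * d * x) + 2 * d * W * (y - x) with hE1
      set ε2 : E := ((a + b * x + c * x ^ 2 : ℤ) : E) + W * (y - x) * (b + c * W * (y + x)) with hE2
      set ε3 : E := ρ ^ 2 - 2 * (b - c * x * W ^ 2) with hE3
      have e : (kp X d).ev α * (k0 (K := E) d a b c).ev α - T ^ 2 =
          2 * d * d * x * (W - 1) * ε2 + d * ε1 * (x * (W - 1) * (b - c * x * W ^ 2)) +
            d * ε1 * ε2 - (d * x * (W - 1)) ^ 2 * ε3 := by
        have p1 : (kp X d).ev α = 2 * d * x * (W - 1) + ε1 := by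
          rw [kp_ev, hα, hE1]
          ring
        have p2 : (k0 (K := E) d a b c).ev α = d * (x * (W - 1) * (b - c * x * W ^ 2) + ε2) := by
          rw [k0_ev, hα, hE2]
          push_cast
          linear_combination ((d : E) * c * x ^ 2) * hW3
        have p3 : T ^ 2 = (d * x * (W - 1)) ^ 2 * (ε3 + 2 * (b - c * x * W ^ 2)) := by
          rw [hT, hE3]
          ring
        rw [p1, p2, p3]
        ring
      rw [e]
      have m3 : (exp (-1 : ℤ) * exp (-2 : ℤ) : ℤᵐ⁰) = exp (-3 : ℤ) := by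
        rw [← exp_add]
        norm_num
      have m2 : (exp (-1 : ℤ) * exp (-1 : ℤ) : ℤᵐ⁰) = exp (-2 : ℤ) := by
        rw [← exp_add]
        norm_num
      refine v.map_sub_le (v.map_add_le (v.map_add_le ?_ ?_) ?_) ?_
      · rw [map_mul, map_mul, map_mul, map_mul, map_mul, D.two, D.vd, D.x1, hu1, one_mul, mul_one,
          mul_one, m2, mul_comm]
        refine (mul_le_mul' hε2 le_rfl).trans (le_of_eq m3)
      · rw [map_mul, map_mul, map_mul, map_mul, D.x1, hu1, hz1, D.vd, mul_one, mul_one, mul_one]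
        refine (mul_le_mul' le_rfl hε1).trans (le_of_eq m3)
      · rw [map_mul, map_mul, D.vd]
        refine (mul_le_mul' (mul_le_mul' le_rfl hε1) (hε2.trans ?_)).trans (le_of_eq (by rw [mul_one, m3]))
        rw [← exp_zero, exp_le_exp]
        norm_num
      · rw [map_mul, map_pow, map_mul, map_mul, D.x1, hu1, D.vd, mul_one, mul_one, pow_two, m2, mul_comm]
        refine (mul_le_mul' hε3 le_rfl).trans (le_of_eq m3)
    have f4 : v ((R - T) * (R + T)) ≤ exp (-3 : ℤ) := by
      have e : (R - T) * (R + T) = (R * R - (kp X d * k0 (K := E) d a b c).ev α) -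
          ((kp X d).ev α * (k0 (K := E) d a b c).ev α - (kp X d * k0 (K := E) d a b c).ev α) +
          ((kp X d).ev α * (k0 (K := E) d a b c).ev α - T ^ 2) := by ring
      rw [e]
      exact v.map_add_le (v.map_sub_le f1 f2) f3
    have f5 : v (R - T) = v (R + T) := by
      have h1 : σ (R - T) = -(R + T) := by
        rw [map_sub, hσR, hσT]
        ring
      have h2 := vd_aut hd hp (σ : E ≃+* E) (R - T)
      have h3 : (σ : E ≃+* E) (R - T) = -(R + T) := h1
      rw [h3, Valuation.map_neg] at h2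
      exact h2.symm
    have f6 : v (R - T) < exp (-1 : ℤ) := by
      by_contra hcon
      push Not at hcon
      rw [map_mul, ← f5] at f4
      have h1 := (mul_le_mul' hcon hcon).trans f4
      rw [← exp_add, exp_le_exp] at h1
      norm_num at h1
    have f7 : v (2 * T) < exp (-1 : ℤ) := by
      have e : 2 * T = (R + T) - (R - T) := by ring
      rw [e]
      refine lt_of_le_of_lt (v.map_sub _ _) (max_lt ?_ f6)
      rw [← f5]
      exact f6
    rw [map_mul, D.two, one_mul, hTv] at f7
    exact lt_irrefl _ f7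

/-- **the anti-invariant points are not small** -/
theorem anti_big (hE : Gz E) (hd : Dd d) (hpk : Pd d k) (hp : Pd d E) {w : 𝓞 k}
    (hw : w ^ 2 + w + 1 = 0) (σ : E ≃ₐ[k] E) {X Y : E} (hXY : Y ^ 2 = X ^ 3 + 16 * (d : E) ^ 3)
    (hσX : σ X = X) (hσY : σ Y = -Y) : 1 ≤ vd hd hp X := by
  by_contra hcon
  push Not at hcon
  obtain ⟨a, b, c, x, hx, h1, hF, hb⟩ := exists_F3 hd
  obtain ⟨s, hs, h2⟩ := rec_D hd hF hb
  have D : Dt (vd hd hp) d a b c x s := dt_of hd hp hx h1 hs h2 hF
  set W : E := algebraMap k E (w : k) with hWd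
  have hwk : (w : k) ^ 2 + (w : k) + 1 = 0 := by
    have := congrArg (algebraMap (𝓞 k) k) hw
    rw [map_add, map_add, map_pow, map_one, map_zero] at this
    exact this
  have hW : W ^ 2 + W + 1 = 0 := by
    rw [hWd, ← map_pow, ← map_add, ← map_one (algebraMap k E), ← map_add, hwk, map_zero]
  have hW3 : W ^ 3 = 1 := by linear_combination (W - 1) * hW
  have hσW : σ W = W := by rw [hWd, AlgEquiv.commutes]
  have hWv := v_cub (v := vd hd hp) hW
  -- the three classes
  have hcl : vd hd hp (X + 2 * d * x) ≤ exp (-2 : ℤ) ∨ vd hd hp (X + W * (2 * d * x)) ≤ exp (-2 : ℤ) ∨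
      vd hd hp (X + W ^ 2 * (2 * d * x)) ≤ exp (-2 : ℤ) := by
    by_contra hcon'
    push Not at hcon'
    obtain ⟨c1, c2, c3⟩ := hcon'
    have hge : ∀ z : E, exp (-2 : ℤ) < vd hd hp z → exp (-1 : ℤ) ≤ vd hd hp z := by
      intro z hz
      by_contra h
      push Not at h
      exact absurd (Pool.Agent.H98.A.le_exp_of_lt h) (not_le.2 (by simpa using hz))
    have h6 := (small_y (vd_d hd hp) (vd_two hd hp) hXY hcon).1
    have h7 : vd hd hp ((X + 2 * d * x) * (X + W * (2 * d * x)) * (X + W ^ 2 * (2 * d * x))) ≤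
        exp (-4 : ℤ) := by
      have e : (X + 2 * d * x) * (X + W * (2 * d * x)) * (X + W ^ 2 * (2 * d * x)) =
          Y ^ 2 + ((2 ^ 3 * d ^ 3 * (x ^ 3 - 2) : ℤ) : E) := by
        rw [hXY]
        push_cast
        linear_combination ((2 * d * x) * X ^ 2 + (2 * d * x) ^ 2 * X * W + (2 * d * x) ^ 3 * (W - 1)) * hW
      rw [e]
      refine (vd hd hp).map_add_le h6 ?_
      have := D.dvn (n := 4) (z := 2 ^ 3 * d ^ 3 * (x ^ 3 - 2)) (by
        obtain ⟨e', he'⟩ := hx
        rw [he']
        exact ⟨2 ^ 3 * e', by ring⟩)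
      exact_mod_cast this
    have h8 : exp (-3 : ℤ) ≤ vd hd hp ((X + 2 * d * x) * (X + W * (2 * d * x)) *
        (X + W ^ 2 * (2 * d * x))) := by
      rw [map_mul, map_mul]
      have := mul_le_mul' (mul_le_mul' (hge _ c1) (hge _ c2)) (hge _ c3)
      rw [← exp_add, ← exp_add] at this
      exact this
    have h9 := h8.trans h7
    rw [exp_le_exp] at h9
    omega
  rcases hcl with h | h | h
  · exact anti_aux hE hd hpk hp hw σ hXY hσX hσY D hb h
  · refine anti_aux hE hd hpk hp hw σ (X := W ^ 2 * X) (Y := Y) ?_ ?_ hσY D hb ?_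
    · rw [hXY, mul_pow, ← pow_mul, mul_comm 2 3, pow_mul, hW3]
      ring
    · rw [map_mul, map_pow, hσW, hσX]
    · have e : W ^ 2 * X + 2 * d * x = W ^ 2 * (X + W * (2 * d * x)) := by
        linear_combination (-(2 * d * x)) * hW3
      rw [e, map_mul, map_pow, hWv, one_pow, one_mul]
      exact h
  · refine anti_aux hE hd hpk hp hw σ (X := W * X) (Y := Y) ?_ ?_ hσY D hb ?_
    · rw [hXY, mul_pow, hW3]
      ring
    · rw [map_mul, hσW, hσX]
    · have e : W * X + 2 * d * x = W * (X + W ^ 2 * (2 * d * x)) := by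
        linear_combination (-(2 * d * x)) * hW3
      rw [e, map_mul, hWv, one_mul]
      exact h

end

end Pool.Agent.H98.R
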