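import Mathlib
import Pool.Agent.H98.Q.Par
import Pool.Graph.R_seed8.Y696.Cb

/-!
# The prime numbers as values of the norm form of the field of the cube root of two
-/

set_option autoImplicit false
set_option linter.unusedSectionVars false
set_option linter.unusedVariables false

namespace Pool.Agent.H98.R

open Pool.Agent.H98.Q Pool.Agent.Y696

/-- the norm form -/
def F3 (a b c : ℤ) : ℤ := a ^ 3 + 2 * b ^ 3 + 4 * c ^ 3 - 6 * a * b * c

lemma cbrt (n : ℕ) : ∃ A : ℕ, A ^ 3 ≤ n ∧ n < (A + 1) ^ 3 := by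
  induction n with
  | zero => exact ⟨0, by norm_num, by norm_num⟩
  | succ n ih =>
    obtain ⟨A, h1, h2⟩ := ih
    by_cases h : n + 1 < (A + 1) ^ 3
    · exact ⟨A, h1.trans (Nat.le_succ n), h⟩
    · refine ⟨A + 1, not_lt.1 h, ?_⟩
      have : (A + 1) ^ 3 < (A + 1 + 1) ^ 3 := Nat.pow_lt_pow_left (by omega) (by norm_num)
      omega

lemma exists_theta : ∃ θ : ℝ, 0 < θ ∧ θ ^ 3 = 2 := by
  refine ⟨(2 : ℝ) ^ ((1 : ℝ) / 3), by positivity, ?_⟩
  rw [← Real.rpow_natCast, ← Real.rpow_mul (by norm_num)]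
  norm_num

lemma amgm {a b c : ℤ} (ha : 0 ≤ a) (hb : 0 ≤ b) (hc : 0 ≤ c) :
    6 * (a * b * c) ≤ a ^ 3 + 2 * b ^ 3 + 4 * c ^ 3 := by
  obtain ⟨θ, h0, h3⟩ := exists_theta
  have ha' : (0 : ℝ) ≤ a := by exact_mod_cast ha
  have hb' : (0 : ℝ) ≤ b := by exact_mod_cast hb
  have hc' : (0 : ℝ) ≤ c := by exact_mod_cast hc
  have e : (a : ℝ) ^ 3 + 2 * b ^ 3 + 4 * c ^ 3 - 6 * (a * b * c) = 1 / 2 * ((a + b * θ + c * θ ^ 2) *
      ((a - b * θ) ^ 2 + (b * θ - c * θ ^ 2) ^ 2 + (a - c * θ ^ 2) ^ 2)) := by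
    linear_combination (3 * a * b * c - b ^ 3 - c ^ 3 * (θ ^ 3 + 2)) * h3
  have h : (0 : ℝ) ≤ (a : ℝ) ^ 3 + 2 * b ^ 3 + 4 * c ^ 3 - 6 * (a * b * c) := by
    rw [e]
    positivity
  have h' : (0 : ℝ) ≤ ((a ^ 3 + 2 * b ^ 3 + 4 * c ^ 3 - 6 * (a * b * c) : ℤ) : ℝ) := by
    push_cast
    exact h
  have h'' : 0 ≤ a ^ 3 + 2 * b ^ 3 + 4 * c ^ 3 - 6 * (a * b * c) := by exact_mod_cast h'
  linarith

lemma F3_bound {q a b c : ℤ} (ha : |a| ^ 3 ≤ 2 * q) (hb : |b| ^ 3 ≤ q) (hc : 2 * |c| ^ 3 ≤ q) :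
    |F3 a b c| ≤ 8 * q := by
  have h := amgm (abs_nonneg a) (abs_nonneg b) (abs_nonneg c)
  have h0 : 0 ≤ |a| * |b| * |c| := by positivity
  have hα : 0 ≤ |a| ^ 3 := by positivity
  have hβ : 0 ≤ |b| ^ 3 := by positivity
  have hγ : 0 ≤ |c| ^ 3 := by positivity
  unfold F3
  rcases abs_cases a with ⟨ha1, ha2⟩ | ⟨ha1, ha2⟩ <;>
    rcases abs_cases b with ⟨hb1, hb2⟩ | ⟨hb1, hb2⟩ <;>
    rcases abs_cases c with ⟨hc1, hc2⟩ | ⟨hc1, hc2⟩ <;>
    rw [ha1, hb1, hc1] at h h0 <;> rw [ha1] at ha hα <;> rw [hb1] at hb hβ <;>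
    rw [hc1] at hc hγ <;> rw [abs_le] <;> constructor <;> nlinarith

lemma F3_ne {a b c : ℤ} (h : a ≠ 0 ∨ b ≠ 0 ∨ c ≠ 0) : F3 a b c ≠ 0 := by
  suffices H : ∀ n : ℕ, ∀ a b c : ℤ, a.natAbs + b.natAbs + c.natAbs ≤ n → F3 a b c = 0 →
      a = 0 ∧ b = 0 ∧ c = 0 by
    intro h0
    obtain ⟨h1, h2, h3⟩ := H _ a b c le_rfl h0
    rcases h with h | h | h
    · exact h h1
    · exact h h2
    · exact h h3
  intro n
  induction n with
  | zero =>
    intro a b c hn _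
    omega
  | succ n ih =>
    intro a b c hn h0
    unfold F3 at h0
    by_cases ha : a = 0
    · subst ha
      -- `2 b³ + 4 c³ = 0`
      have h1 : b ^ 3 + 2 * c ^ 3 = 0 := by linarith
      have h2 : (2 : ℤ) ∣ b ^ 3 := ⟨-c ^ 3, by linarith⟩
      obtain ⟨b', rfl⟩ := Int.prime_two.dvd_of_dvd_pow h2
      have h3 : (2 : ℤ) ∣ c ^ 3 := ⟨-(2 * b' ^ 3), by linarith⟩
      obtain ⟨c', rfl⟩ := Int.prime_two.dvd_of_dvd_pow h3
      by_cases hz : b' = 0 ∧ c' = 0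
      · rw [hz.1, hz.2]
        norm_num
      · have := ih 0 b' c' (by omega) (by unfold F3; linarith)
        exact absurd this.2 hz
    · have h2 : (2 : ℤ) ∣ a ^ 3 := ⟨-b ^ 3 - 2 * c ^ 3 + 3 * a * b * c, by linarith⟩
      obtain ⟨a', rfl⟩ := Int.prime_two.dvd_of_dvd_pow h2
      have := ih b c a' (by omega) (by unfold F3; linarith)
      exact absurd (by rw [this.2.2, mul_zero]) ha

lemma pigeon {q : ℕ} (hq : 0 < q) (x : ℤ) : ∃ a b c : ℤ, (a ≠ 0 ∨ b ≠ 0 ∨ c ≠ 0) ∧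
    (q : ℤ) ∣ a + b * x + c * x ^ 2 ∧ |a| ^ 3 ≤ 2 * q ∧ |b| ^ 3 ≤ q ∧ 2 * |c| ^ 3 ≤ q := by
  obtain ⟨A, hA1, hA2⟩ := cbrt (2 * q)
  obtain ⟨B, hB1, hB2⟩ := cbrt q
  obtain ⟨C, hC1, hC2⟩ := cbrt (q / 2)
  have hcard : q < (A + 1) * ((B + 1) * (C + 1)) := by
    by_contra hcon
    push Not at hcon
    have h1 : ((A + 1) * ((B + 1) * (C + 1))) ^ 3 ≤ q ^ 3 := Nat.pow_le_pow_left hcon 3
    have h3 : q + 1 ≤ 2 * (C + 1) ^ 3 := by omega
    have h4 : (2 * q + 1) * ((q + 1) * (q + 1)) ≤ (A + 1) ^ 3 * ((B + 1) ^ 3 * (2 * (C + 1) ^ 3)) :=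
      Nat.mul_le_mul hA2 (Nat.mul_le_mul hB2 h3)
    have h5 : (A + 1) ^ 3 * ((B + 1) ^ 3 * (2 * (C + 1) ^ 3)) =
        2 * ((A + 1) * ((B + 1) * (C + 1))) ^ 3 := by ring
    rw [h5] at h4
    have h6 : (2 * q + 1) * ((q + 1) * (q + 1)) = 2 * q ^ 3 + (5 * q ^ 2 + 4 * q + 1) := by ring
    omega
  have : NeZero q := ⟨hq.ne'⟩
  set s : Finset (ℕ × ℕ × ℕ) :=
    Finset.range (A + 1) ×ˢ Finset.range (B + 1) ×ˢ Finset.range (C + 1) with hs
  set f : ℕ × ℕ × ℕ → ZMod q := fun p => p.1 + p.2.1 * x + p.2.2 * x ^ 2 with hf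
  have hc : (Finset.univ : Finset (ZMod q)).card < s.card := by
    rw [hs, Finset.card_product, Finset.card_product, Finset.card_range, Finset.card_range,
      Finset.card_range, Finset.card_univ, ZMod.card]
    exact hcard
  obtain ⟨p, hp, p', hp', hne, hff⟩ := Finset.exists_ne_map_eq_of_card_lt_of_maps_to hc (f := f)
    (fun _ _ => Finset.mem_univ _)
  rw [hs, Finset.mem_product, Finset.mem_product, Finset.mem_range, Finset.mem_range,
    Finset.mem_range] at hp hp'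
  obtain ⟨i, j, k⟩ := p
  obtain ⟨i', j', k'⟩ := p'
  simp only at hp hp'
  have hb : ∀ {m n N M : ℕ}, m < N + 1 → n < N + 1 → N ^ 3 ≤ M → |(m : ℤ) - n| ^ 3 ≤ M := by
    intro m n N M hm hn hN
    have h1 : |(m : ℤ) - n| ≤ N := by
      rw [abs_le]
      constructor <;> omega
    have h2 : |(m : ℤ) - n| ^ 3 ≤ (N : ℤ) ^ 3 := pow_le_pow_left₀ (abs_nonneg _) h1 3
    have h3 : (N : ℤ) ^ 3 ≤ M := by exact_mod_cast hN
    exact h2.trans h3
  refine ⟨(i : ℤ) - i', (j : ℤ) - j', (k : ℤ) - k', ?_, ?_, ?_, ?_, ?_⟩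
  · by_contra hcon
    push Not at hcon
    apply hne
    ext
    · have := hcon.1
      omega
    · have := hcon.2.1
      simp only
      omega
    · have := hcon.2.2
      simp only
      omega
  · rw [← ZMod.intCast_zmod_eq_zero_iff_dvd]
    simp only [hf] at hff
    push_cast
    linear_combination hff
  · have := hb hp.1 hp'.1 hA1
    push_cast at this
    exact this
  · exact hb hp.2.1 hp'.2.1 hB1
  · have := hb hp.2.2 hp'.2.2 hC1
    have h2 : 2 * ((q / 2 : ℕ) : ℤ) ≤ q := by omega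
    linarith

section desc
variable {d x a b c : ℤ}

lemma cop_x (h2 : IsCoprime d 2) (hx : d ∣ x ^ 3 - 2) : IsCoprime d x := by
  obtain ⟨u, v, h⟩ := h2
  obtain ⟨e, he⟩ := hx
  exact ⟨u - v * e, v * x ^ 2, by linear_combination h + v * he⟩

lemma cop_x1 (h3 : IsCoprime d 3) (hx : d ∣ x ^ 3 - 2) : IsCoprime d (1 + x) := by
  obtain ⟨u, v, h⟩ := h3
  obtain ⟨e, he⟩ := hx
  exact ⟨u - v * e, v * (x ^ 2 - x + 1), by linear_combination h + v * he⟩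

lemma cop_x2 (h5 : IsCoprime d 5) (hx : d ∣ x ^ 3 - 2) : IsCoprime d (1 + x ^ 2) := by
  obtain ⟨u, v, h⟩ := h5
  obtain ⟨e, he⟩ := hx
  exact ⟨u - v * (2 - x) * e, v * (1 + 2 * x - x ^ 2), by linear_combination h + v * (2 - x) * he⟩

lemma desc2 (h2 : IsCoprime d 2) (hx : d ∣ x ^ 3 - 2) (h : d ∣ a + b * x + c * x ^ 2)
    (hF : 2 ∣ F3 a b c) :
    ∃ a' b' c' : ℤ, d ∣ a' + b' * x + c' * x ^ 2 ∧ F3 a b c = 2 * F3 a' b' c' := by
  have h3 : (2 : ℤ) ∣ a ^ 3 := by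
    have e : a ^ 3 = F3 a b c - 2 * (b ^ 3 + 2 * c ^ 3 - 3 * a * b * c) := by
      unfold F3
      ring
    rw [e]
    exact dvd_sub hF (Dvd.intro _ rfl)
  obtain ⟨a', rfl⟩ := Int.prime_two.dvd_of_dvd_pow h3
  refine ⟨b, c, a', ?_, by unfold F3; ring⟩
  refine (cop_x h2 hx).dvd_of_dvd_mul_left (?_ : d ∣ x * _)
  have e : x * (b + c * x + a' * x ^ 2) = (2 * a' + b * x + c * x ^ 2) + a' * (x ^ 3 - 2) := by ring
  rw [e]
  exact dvd_add h (hx.mul_left _)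

lemma desc3 (h3 : IsCoprime d 3) (hx : d ∣ x ^ 3 - 2) (h : d ∣ a + b * x + c * x ^ 2)
    (hF : 3 ∣ F3 a b c) :
    ∃ a' b' c' : ℤ, d ∣ a' + b' * x + c' * x ^ 2 ∧ F3 a b c = 3 * F3 a' b' c' := by
  have key : ∀ a b c : ZMod 3, a ^ 3 + 2 * b ^ 3 + 4 * c ^ 3 - 6 * a * b * c = 0 →
      a - b + c = 0 := by decide
  have h4 : (3 : ℤ) ∣ a - b + c := by
    have h5 : ((F3 a b c : ℤ) : ZMod 3) = 0 := (ZMod.intCast_zmod_eq_zero_iff_dvd _ 3).2 hF
    unfold F3 at h5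
    push_cast at h5
    have h6 := key a b c h5
    have h7 : ((a - b + c : ℤ) : ZMod 3) = 0 := by
      push_cast
      exact h6
    exact (ZMod.intCast_zmod_eq_zero_iff_dvd _ 3).1 h7
  obtain ⟨e, he⟩ := h4
  have ha : a = 3 * e + b - c := by linarith
  subst ha
  refine ⟨e + b - c, c - e, e, ?_, by unfold F3; ring⟩
  refine (cop_x1 h3 hx).dvd_of_dvd_mul_left (?_ : d ∣ (1 + x) * _)
  have e' : (1 + x) * (e + b - c + (c - e) * x + e * x ^ 2) =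
      (3 * e + b - c + b * x + c * x ^ 2) + e * (x ^ 3 - 2) := by ring
  rw [e']
  exact dvd_add h (hx.mul_left _)

lemma desc5 (h5 : IsCoprime d 5) (hx : d ∣ x ^ 3 - 2) (h : d ∣ a + b * x + c * x ^ 2)
    (hF : 5 ∣ F3 a b c) (hF' : ¬ 25 ∣ F3 a b c) :
    ∃ a' b' c' : ℤ, d ∣ a' + b' * x + c' * x ^ 2 ∧ F3 a b c = 5 * F3 a' b' c' := by
  have key : ∀ a b c : ZMod 5, a ^ 3 + 2 * b ^ 3 + 4 * c ^ 3 - 6 * a * b * c = 0 →
      a + 3 * b - c = 0 ∨ (a - 4 * c = 0 ∧ b - 3 * c = 0) := by decide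
  have h6 : ((F3 a b c : ℤ) : ZMod 5) = 0 := (ZMod.intCast_zmod_eq_zero_iff_dvd _ 5).2 hF
  unfold F3 at h6
  push_cast at h6
  rcases key a b c h6 with h7 | ⟨h7, h8⟩
  · have h8 : (5 : ℤ) ∣ a + 3 * b - c := by
      have h7 : ((a + 3 * b - c : ℤ) : ZMod 5) = 0 := by
        push_cast
        exact h7
      exact (ZMod.intCast_zmod_eq_zero_iff_dvd _ 5).1 h7
    obtain ⟨e, he⟩ := h8
    have hc : c = a + 3 * b - 5 * e := by linarith
    subst hc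
    refine ⟨a + 2 * b - 4 * e, -b + 2 * e, b - e, ?_, by unfold F3; ring⟩
    refine (cop_x2 h5 hx).dvd_of_dvd_mul_left (?_ : d ∣ (1 + x ^ 2) * _)
    have e' : (1 + x ^ 2) * (a + 2 * b - 4 * e + (-b + 2 * e) * x + (b - e) * x ^ 2) =
        (a + b * x + (a + 3 * b - 5 * e) * x ^ 2) + (-b + 2 * e + (b - e) * x) * (x ^ 3 - 2) := by ring
    rw [e']
    exact dvd_add h (hx.mul_left _)
  · exfalso
    apply hF'
    have h9 : (5 : ℤ) ∣ a - 4 * c := by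
      have h7 : ((a - 4 * c : ℤ) : ZMod 5) = 0 := by
        push_cast
        exact h7
      exact (ZMod.intCast_zmod_eq_zero_iff_dvd _ 5).1 h7
    have h10 : (5 : ℤ) ∣ b - 3 * c := by
      have h7 : ((b - 3 * c : ℤ) : ZMod 5) = 0 := by
        push_cast
        exact h8
      exact (ZMod.intCast_zmod_eq_zero_iff_dvd _ 5).1 h7
    obtain ⟨a', ha'⟩ := h9
    obtain ⟨b', hb'⟩ := h10
    have ha : a = 4 * c + 5 * a' := by linarith
    have hb : b = 3 * c + 5 * b' := by linarith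
    subst ha hb
    refine ⟨2 * c ^ 3 + 6 * a' * c ^ 2 + 6 * b' * c ^ 2 + 12 * a' ^ 2 * c + 18 * b' ^ 2 * c -
      6 * a' * b' * c + 5 * a' ^ 3 + 10 * b' ^ 3, ?_⟩
    unfold F3
    ring

lemma desc7 (hF : 7 ∣ F3 a b c) : 343 ∣ F3 a b c := by
  have key : ∀ a b c : ZMod 7, a ^ 3 + 2 * b ^ 3 + 4 * c ^ 3 - 6 * a * b * c = 0 →
      a = 0 ∧ b = 0 ∧ c = 0 := by decide
  have h6 : ((F3 a b c : ℤ) : ZMod 7) = 0 := (ZMod.intCast_zmod_eq_zero_iff_dvd _ 7).2 hF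
  unfold F3 at h6
  push_cast at h6
  obtain ⟨h1, h2, h3⟩ := key a b c h6
  obtain ⟨a', rfl⟩ := (ZMod.intCast_zmod_eq_zero_iff_dvd _ 7).1 h1
  obtain ⟨b', rfl⟩ := (ZMod.intCast_zmod_eq_zero_iff_dvd _ 7).1 h2
  obtain ⟨c', rfl⟩ := (ZMod.intCast_zmod_eq_zero_iff_dvd _ 7).1 h3
  refine ⟨F3 a' b' c', ?_⟩
  unfold F3
  push_cast
  ring

end desc

/-- the prime as a value, up to the sign -/
lemma desc_all {d x : ℤ} (hd : Dd d) (h5 : d.natAbs ≠ 5) (hx : d ∣ x ^ 3 - 2) : ∀ m : ℕ, 1 ≤ m →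
    m ≤ 8 → ∀ a b c : ℤ, d ∣ a + b * x + c * x ^ 2 → (F3 a b c = m * d ∨ F3 a b c = -(m * d)) →
    ∃ a b c : ℤ, d ∣ a + b * x + c * x ^ 2 ∧ (F3 a b c = d ∨ F3 a b c = -d) := by
  have c2 : IsCoprime d 2 := by
    obtain ⟨u, v, h⟩ := hd.cop2
    exact ⟨v, u, by linarith⟩
  have c3 : IsCoprime d 3 := by
    obtain ⟨u, v, h⟩ := hd.cop3
    exact ⟨v, u, by linarith⟩
  have c5 : IsCoprime d 5 := by
    rw [Int.isCoprime_iff_gcd_eq_one, Int.gcd_eq_natAbs]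
    exact (Nat.coprime_primes hd.pr Nat.prime_five).2 h5
  have hd0 := hd.ne
  have n1 : ∀ a b c : ℤ, d ∣ a + b * x + c * x ^ 2 → (F3 a b c = (1 : ℤ) * d ∨ F3 a b c = -((1 : ℤ) * d)) →
      ∃ a b c : ℤ, d ∣ a + b * x + c * x ^ 2 ∧ (F3 a b c = d ∨ F3 a b c = -d) := by
    intro a b c h1 h2
    rw [one_mul] at h2
    exact ⟨a, b, c, h1, h2⟩
  have s2 : ∀ m : ℤ, (∀ a b c : ℤ, d ∣ a + b * x + c * x ^ 2 → (F3 a b c = m * d ∨ F3 a b c = -(m * d)) →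
      ∃ a b c : ℤ, d ∣ a + b * x + c * x ^ 2 ∧ (F3 a b c = d ∨ F3 a b c = -d)) →
      (∀ a b c : ℤ, d ∣ a + b * x + c * x ^ 2 → (F3 a b c = (2 * m) * d ∨ F3 a b c = -((2 * m) * d)) →
      ∃ a b c : ℤ, d ∣ a + b * x + c * x ^ 2 ∧ (F3 a b c = d ∨ F3 a b c = -d)) := by
    intro m ih a b c h1 h2
    obtain ⟨a', b', c', h3, h4⟩ := desc2 c2 hx h1 (by
      rcases h2 with h2 | h2 <;> rw [h2]
      · exact ⟨m * d, by ring⟩
      · exact ⟨-(m * d), by ring⟩)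
    refine ih a' b' c' h3 ?_
    rcases h2 with h2 | h2
    · left
      linarith
    · right
      linarith
  have n2 := s2 1 n1
  have n4 := s2 _ n2
  have n8 := s2 _ n4
  have n3 : ∀ a b c : ℤ, d ∣ a + b * x + c * x ^ 2 → (F3 a b c = (3 : ℤ) * d ∨ F3 a b c = -((3 : ℤ) * d)) →
      ∃ a b c : ℤ, d ∣ a + b * x + c * x ^ 2 ∧ (F3 a b c = d ∨ F3 a b c = -d) := by
    intro a b c h1 h2
    obtain ⟨a', b', c', h3, h4⟩ := desc3 c3 hx h1 (by
      rcases h2 with h2 | h2 <;> rw [h2]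
      · exact ⟨d, by ring⟩
      · exact ⟨-d, by ring⟩)
    refine ⟨a', b', c', h3, ?_⟩
    rcases h2 with h2 | h2
    · left
      linarith
    · right
      linarith
  have n6 := s2 _ n3
  have n5 : ∀ a b c : ℤ, d ∣ a + b * x + c * x ^ 2 → (F3 a b c = (5 : ℤ) * d ∨ F3 a b c = -((5 : ℤ) * d)) →
      ∃ a b c : ℤ, d ∣ a + b * x + c * x ^ 2 ∧ (F3 a b c = d ∨ F3 a b c = -d) := by
    intro a b c h1 h2
    have hn : ¬ (25 : ℤ) ∣ 5 * d := by
      rintro ⟨e, he⟩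
      have h6 : (5 : ℤ) ∣ d := ⟨e, by linarith⟩
      have h7 : (5 : ℤ) ∣ 1 := by
        obtain ⟨u, v, huv⟩ := c5
        rw [← huv]
        exact dvd_add (h6.mul_left _) (Dvd.intro_left _ rfl)
      norm_num at h7
    obtain ⟨a', b', c', h3, h4⟩ := desc5 c5 hx h1 (by
      rcases h2 with h2 | h2 <;> rw [h2]
      · exact ⟨d, by ring⟩
      · exact ⟨-d, by ring⟩) (by
      rcases h2 with h2 | h2 <;> rw [h2]
      · exact hn
      · rw [dvd_neg]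
        exact hn)
    refine ⟨a', b', c', h3, ?_⟩
    rcases h2 with h2 | h2
    · left
      linarith
    · right
      linarith
  have n7 : ∀ a b c : ℤ, d ∣ a + b * x + c * x ^ 2 → (F3 a b c = (7 : ℤ) * d ∨ F3 a b c = -((7 : ℤ) * d)) →
      ∃ a b c : ℤ, d ∣ a + b * x + c * x ^ 2 ∧ (F3 a b c = d ∨ F3 a b c = -d) := by
    intro a b c h1 h2
    exfalso
    have h3 := desc7 (a := a) (b := b) (c := c) (by
      rcases h2 with h2 | h2 <;> rw [h2]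
      · exact ⟨d, by ring⟩
      · exact ⟨-d, by ring⟩)
    have h4 : (343 : ℤ) ∣ 7 * d := by
      rcases h2 with h2 | h2 <;> rw [h2] at h3
      · exact h3
      · rwa [dvd_neg] at h3
    obtain ⟨e, he⟩ := h4
    have h6 : (7 : ℤ) ∣ d := ⟨7 * e, by linarith⟩
    have h7 : 7 ∣ d.natAbs := by
      have := Int.natAbs_dvd_natAbs.2 h6
      exact this
    have h8 : 7 = d.natAbs := (Nat.prime_dvd_prime_iff_eq (by norm_num) hd.pr).1 h7
    have := hd.m3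
    omega
  intro m hm1 hm8 a b c h1 h2
  interval_cases m
  · exact n1 a b c h1 (by exact_mod_cast h2)
  · exact n2 a b c h1 (by push_cast at h2; rwa [mul_one])
  · exact n3 a b c h1 (by exact_mod_cast h2)
  · exact n4 a b c h1 (by push_cast at h2; norm_num; exact h2)
  · exact n5 a b c h1 (by exact_mod_cast h2)
  · exact n6 a b c h1 (by push_cast at h2; norm_num; exact h2)
  · exact n7 a b c h1 (by exact_mod_cast h2)
  · exact n8 a b c h1 (by push_cast at h2; norm_num; exact h2)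

/-- **the prime as a value of the norm form** -/
theorem exists_F3 {d : ℤ} (hd : Dd d) : ∃ a b c x : ℤ, d ∣ x ^ 3 - 2 ∧ d ∣ a + b * x + c * x ^ 2 ∧
    F3 a b c = d ∧ 2 ∣ b := by
  -- up to the parity
  have key : ∃ a b c x : ℤ, d ∣ x ^ 3 - 2 ∧ d ∣ a + b * x + c * x ^ 2 ∧ F3 a b c = d := by
    obtain ⟨x, e, hx⟩ := hd.cube
    have hx' : d ∣ x ^ 3 - 2 := ⟨e, hx⟩
    have sgn : ∀ a b c : ℤ, d ∣ a + b * x + c * x ^ 2 → (F3 a b c = d ∨ F3 a b c = -d) →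
        ∃ a b c x : ℤ, d ∣ x ^ 3 - 2 ∧ d ∣ a + b * x + c * x ^ 2 ∧ F3 a b c = d := by
      rintro a b c h1 (h2 | h2)
      · exact ⟨a, b, c, x, hx', h1, h2⟩
      · refine ⟨-a, -b, -c, x, hx', ?_, ?_⟩
        · have : -a + -b * x + -c * x ^ 2 = -(a + b * x + c * x ^ 2) := by ring
          rw [this, dvd_neg]
          exact h1
        · have : F3 (-a) (-b) (-c) = -F3 a b c := by
            unfold F3
            ring
          rw [this, h2, neg_neg]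
    by_cases h5 : d.natAbs = 5
    · have hd5 : d = 5 := by
        have := hd.m4
        omega
      subst hd5
      exact ⟨1, 0, 1, 3, ⟨5, by norm_num⟩, ⟨2, by norm_num⟩, by unfold F3; norm_num⟩
    · obtain ⟨a, b, c, hne, h1, ha, hb, hc⟩ := pigeon hd.pr.pos x
      have h1' : d ∣ a + b * x + c * x ^ 2 := Int.natAbs_dvd.1 h1
      have h2 := F3_bound ha hb hc
      have h3 := F3_ne hne
      have h4 : d ∣ F3 a b c := by
        have e2 : F3 a b c = (a + b * x + c * x ^ 2) *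
            (a ^ 2 - 2 * b * c + (2 * c ^ 2 - a * b) * x + (b ^ 2 - a * c) * x ^ 2) -
            (x ^ 3 - 2) * (b * (b ^ 2 - a * c) + c * (2 * c ^ 2 - a * b) + c * (b ^ 2 - a * c) * x) := by
          unfold F3
          ring
        rw [e2]
        exact dvd_sub (h1'.mul_right _) (hx'.mul_right _)
      obtain ⟨m, hm⟩ := h4
      have hm0 : m ≠ 0 := by
        rintro rfl
        exact h3 (by rw [hm, mul_zero])
      have hq0 : (0 : ℤ) < d.natAbs := by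
        have := hd.pr.pos
        exact_mod_cast this
      have hm8 : m.natAbs ≤ 8 := by
        rw [hm, abs_mul, Int.abs_eq_natAbs d, Int.abs_eq_natAbs m, mul_comm] at h2
        have := le_of_mul_le_mul_right h2 hq0
        exact_mod_cast this
      obtain ⟨a', b', c', h6, h7⟩ := desc_all hd h5 hx' m.natAbs (by omega) hm8 a b c h1' (by
        rcases Int.natAbs_eq m with h | h
        · left
          rw [← h, hm, mul_comm]
        · right
          rw [← neg_mul, ← h, hm, mul_comm])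
      exact sgn a' b' c' h6 h7
  obtain ⟨a, b, c, x, h1, h2, h3⟩ := key
  by_cases hb : 2 ∣ b
  · exact ⟨a, b, c, x, h1, h2, h3, hb⟩
  · have hodd : d % 2 = 1 := by
      have := hd.m4
      omega
    have ha : ¬ (2 : ℤ) ∣ a := by
      rintro ⟨a', rfl⟩
      have : (2 : ℤ) ∣ F3 (2 * a') b c := ⟨4 * a' ^ 3 + b ^ 3 + 2 * c ^ 3 - 6 * a' * b * c, by
        unfold F3
        ring⟩
      rw [h3] at this
      omega
    refine ⟨2 * c - a, a - b, b - c, x, h1, ?_, ?_, by omega⟩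
    · have e : 2 * c - a + (a - b) * x + (b - c) * x ^ 2 = (x - 1) * (a + b * x + c * x ^ 2) -
          c * (x ^ 3 - 2) := by ring
      rw [e]
      exact dvd_sub (h2.mul_left _) (h1.mul_left _)
    · rw [← h3]
      unfold F3
      ring

end Pool.Agent.H98.R
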