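import Pool.Agent.H98.A.Loc5

/-!
# The local conditions for the points of `y² = x³ + 16 t³`
-/

set_option autoImplicit false
set_option linter.unusedSectionVars false
set_option linter.unusedVariables false

namespace Pool.Agent.H98.R

open Pool.Agent.Y696 IsDedekindDomain NumberField WithZero
open Pool.Agent.H98.A (exp_rep even_of even_one v_sq le_exp_of_lt)

section val
variable {K : Type} [Field K] {v : Valuation K ℤᵐ⁰} {t : K}

/-- away from `6 t` -/
lemma ev_good {x y : K} (hxy : y ^ 2 = x ^ 3 + 16 * t ^ 3) (hy : y ≠ 0) (h2 : v 2 = 1) (h3 : v 3 = 1)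
    (h5 : v t = 1) : EvV v (⟨x, 2 * t, 0⟩ : Cb K) := by
  have hvy : v y ≠ 0 := (v.ne_zero_iff).2 hy
  obtain ⟨k, hk⟩ := exp_lb v (pow_ne_zero 2 hy)
  refine ⟨k + 1, fun a ha => ?_⟩
  have ha1 : v (a ^ 3 - 2) < v (y ^ 2) := by
    refine lt_of_le_of_lt ha (lt_of_lt_of_le ?_ hk)
    rw [exp_lt_exp]
    push_cast
    omega
  have ha2 : v (a ^ 3 - 2) < 1 := by
    refine lt_of_le_of_lt ha ?_
    rw [← exp_zero, exp_lt_exp]
    push_cast
    omega
  have ha3 : v a = 1 := by
    have h6 : v (a ^ 3) = 1 := by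
      rw [← h2]
      exact Valuation.map_eq_of_sub_lt v (by rwa [h2])
    rw [map_pow] at h6
    refine le_antisymm ((pow_le_one_iff three_ne_zero).1 h6.le) ?_
    exact (one_le_pow_iff_of_nonneg zero_le three_ne_zero).1 h6.ge
  have h10 : v (2 * t) = 1 := by
    rw [map_mul, h2, h5, one_mul]
  have h1000 : v ((2 * t) ^ 3) = 1 := by
    rw [map_pow, h10, one_pow]
  have hev : (⟨x, 2 * t, 0⟩ : Cb K).ev a = x + 2 * t * a := by
    simp [Cb.ev]
  rw [hev]
  set A := x + 2 * t * a with hA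
  have hAB : v A * v (x ^ 2 - 2 * t * a * x + (2 * t * a) ^ 2) = v (y ^ 2) := by
    rw [← map_mul]
    refine Valuation.map_eq_of_sub_lt v ?_
    have e : A * (x ^ 2 - 2 * t * a * x + (2 * t * a) ^ 2) - y ^ 2 = (2 * t) ^ 3 * (a ^ 3 - 2) := by
      rw [hA, hxy]
      ring
    rw [e, map_mul, h1000, one_mul]
    exact ha1
  have h10a : v (2 * t * a) = 1 := by rw [map_mul, h10, ha3, one_mul]
  rcases lt_or_ge 1 (v x) with hx | hx
  · have h7 : v A = v x := by
      rw [hA]
      exact Valuation.map_add_eq_of_lt_left v (by rwa [h10a])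
    have h8 : v (x ^ 2 - 2 * t * a * x + (2 * t * a) ^ 2) = v x ^ 2 := by
      rw [← map_pow]
      refine Valuation.map_eq_of_sub_lt v ?_
      have e : x ^ 2 - 2 * t * a * x + (2 * t * a) ^ 2 - x ^ 2 = (2 * t * a) * (2 * t * a - x) := by ring
      rw [e, map_mul, h10a, one_mul, map_pow]
      refine lt_of_le_of_lt (v.map_sub _ _) ?_
      rw [h10a, max_eq_right hx.le, pow_two]
      exact lt_mul_of_one_lt_left (lt_trans zero_lt_one hx) hx
    rw [h7, h8, map_pow] at hAB
    rw [h7]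
    refine even_of hvy ?_
    rw [← hAB, pow_succ']
  · have hA1 : v A ≤ 1 := v.map_add_le hx h10a.le
    rcases hA1.lt_or_eq with h | h
    · have h8 : v (x ^ 2 - 2 * t * a * x + (2 * t * a) ^ 2) = 1 := by
        have h300 : v (3 * (2 * t * a) ^ 2) = 1 := by
          rw [map_mul, map_pow, h10a, h3, one_pow, one_mul]
        rw [← h300]
        refine Valuation.map_eq_of_sub_lt v ?_
        have e : x ^ 2 - 2 * t * a * x + (2 * t * a) ^ 2 - 3 * (2 * t * a) ^ 2 =
            A * (A - 3 * (2 * t * a)) := by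
          rw [hA]
          ring
        rw [e, h300, map_mul]
        refine mul_lt_one_of_nonneg_of_lt_one_left zero_le h ?_
        refine v.map_sub_le hA1 ?_
        rw [map_mul, h3, h10a, one_mul]
      rw [h8, mul_one] at hAB
      rw [hAB]
      exact v_sq hvy
    · rw [h]
      exact even_one

/-- at a place dividing `t`, if `x` is not small -/
lemma ev_big {x y : K} (hxy : y ^ 2 = x ^ 3 + 16 * t ^ 3) (h2 : v 2 = 1)
    (h5 : v t < 1) (hx : 1 ≤ v x) : EvV v (⟨x, 2 * t, 0⟩ : Cb K) := by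
  refine ⟨0, fun a ha => ?_⟩
  have ha3 : v a ≤ 1 := le_of_near v (ha.trans (by simp))
  have hev : (⟨x, 2 * t, 0⟩ : Cb K).ev a = x + 2 * t * a := by
    simp [Cb.ev]
  rw [hev]
  have h7 : v (x + 2 * t * a) = v x := by
    refine Valuation.map_add_eq_of_lt_left v (lt_of_lt_of_le ?_ hx)
    rw [map_mul, map_mul, h2, one_mul]
    exact mul_lt_one_of_nonneg_of_lt_one_left zero_le h5 ha3
  rw [h7]
  have h8 : v (x ^ 3 + 16 * t ^ 3) = v x ^ 3 := by
    rw [← map_pow]
    refine Valuation.map_add_eq_of_lt_left v (lt_of_lt_of_le (b := 1) ?_ ?_ : v (16 * t ^ 3) < v (x ^ 3))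
    · have : (16 * t ^ 3 : K) = 2 * 2 * 2 * 2 * (t * t * t) := by ring
      rw [this]
      simp only [map_mul, h2, one_mul]
      have h55 : v t * v t ≤ 1 := mul_le_one' h5.le h5.le
      rw [mul_comm]
      exact mul_lt_one_of_nonneg_of_lt_one_left zero_le h5 h55
    · rw [map_pow]
      exact one_le_pow₀ hx
  have hvy : v y ≠ 0 := by
    intro h0
    rw [← hxy, map_pow, h0, zero_pow two_ne_zero] at h8
    have : v x ≠ 0 := ne_of_gt (lt_of_lt_of_le zero_lt_one hx)
    exact pow_ne_zero 3 this h8.symm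
  exact even_of hvy (by rw [← h8, ← hxy, map_pow])

/-- at a place above two -/
lemma lv_two {x y : K} (hxy : y ^ 2 = x ^ 3 + 16 * t ^ 3) (hy : y ≠ 0) (h2 : v 2 = exp (-1 : ℤ))
    (h5 : v t = 1) : LvV v (⟨x, 2 * t, 0⟩ : Cb K) := by
  have h20 : (2 : K) ≠ 0 := two_ne_of h2
  have h40 : (4 : K) ≠ 0 := by
    have : (4 : K) = 2 * 2 := by norm_num
    rw [this]
    exact mul_ne_zero h20 h20
  have h10 : v (2 * t) = exp (-1 : ℤ) := by
    rw [map_mul, h2, h5, mul_one]
  have h2000 : v (16 * t ^ 3) = exp (-4 : ℤ) := by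
    have : (16 * t ^ 3 : K) = 2 ^ 4 * t ^ 3 := by norm_num
    rw [this, map_mul, map_pow, map_pow, h2, h5, one_pow, mul_one, ← exp_nsmul]
    rfl
  have hvy : v y ≠ 0 := (v.ne_zero_iff).2 hy
  obtain ⟨l, hl⟩ := exp_rep hvy
  rcases lt_trichotomy (v x) 1 with hx | hx | hx
  · -- `x` divisible by four
    have hx4 : v x ≤ exp (-2 : ℤ) := by
      by_contra hcon
      push Not at hcon
      have hx0 : v x ≠ 0 := ne_of_gt (lt_trans exp_pos hcon)
      obtain ⟨k, hk⟩ := exp_rep hx0
      rw [hk, exp_lt_exp] at hcon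
      rw [hk, ← exp_zero, exp_lt_exp] at hx
      have hk1 : k = -1 := by omega
      subst hk1
      have h8 : v (x ^ 3 + 16 * t ^ 3) = v (x ^ 3) := by
        refine Valuation.map_add_eq_of_lt_left v ?_
        rw [map_pow, hk, h2000, ← exp_nsmul, exp_lt_exp]
        norm_num
      rw [← hxy, map_pow, map_pow, hk, hl, ← exp_nsmul, ← exp_nsmul] at h8
      have h9 := exp_injective h8
      simp only [nsmul_eq_mul] at h9
      push_cast at h9
      omega
    refine ⟨⟨0, 1 / 2, 0⟩, ?_, ?_⟩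
    · have e : (⟨0, 1 / 2, 0⟩ : Cb K).N = 1 / 4 := by
        simp only [Cb.N]
        field_simp
        norm_num
      rw [e]
      exact one_div_ne_zero h40
    · have e : (⟨x, 2 * t, 0⟩ : Cb K) * ⟨0, 1 / 2, 0⟩ ^ 2 = ⟨t, 0, x / 4⟩ := by
        rw [pow_two]
        ext
        · simp
          field_simp
        · simp
        · simp
          field_simp
          norm_num
      rw [e]
      refine ⟨h5, by simp, ?_⟩
      show v (x / 4) ≤ 1
      have h4 : v 4 = exp (-2 : ℤ) := by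
        have : (4 : K) = 2 ^ 2 := by norm_num
        rw [this, map_pow, h2, ← exp_nsmul]
        rfl
      rw [map_div₀, h4]
      refine div_le_one_of_le₀ hx4 zero_le
  · refine ⟨1, by simp, ?_⟩
    rw [one_pow, mul_one]
    refine ⟨hx, ?_, by simp⟩
    show v (2 * t) < 1
    rw [h10, ← exp_zero, exp_lt_exp]
    norm_num
  · -- `x` not integral
    have h8 : v (x ^ 3 + 16 * t ^ 3) = v (x ^ 3) := by
      refine Valuation.map_add_eq_of_lt_left v ?_
      rw [map_pow, h2000]
      refine lt_trans ?_ (one_lt_pow₀ hx three_ne_zero)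
      rw [← exp_zero, exp_lt_exp]
      norm_num
    rw [← hxy, map_pow, map_pow] at h8
    obtain ⟨m, hm⟩ := even_of hvy h8.symm
    have hm0 : 0 < m := by
      rw [hm, ← exp_zero, exp_lt_exp] at hx
      omega
    have h2m : v (2 ^ m) = exp (-m) := v_two_zpow h2 m
    refine ⟨Cb.C (2 ^ m), ?_, ?_⟩
    · rw [Cb.N_C]
      exact pow_ne_zero 3 (zpow_ne_zero m h20)
    · have e : (⟨x, 2 * t, 0⟩ : Cb K) * Cb.C (2 ^ m) ^ 2 =
          ⟨x * (2 ^ m) ^ 2, 2 * t * (2 ^ m) ^ 2, 0⟩ := by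
        have e2 : (Cb.C ((2 : K) ^ m)) ^ 2 = Cb.C ((2 ^ m) ^ 2) := (map_pow Cb.C _ _).symm
        rw [e2]
        ext <;> simp only [Cb.mul_a, Cb.mul_b, Cb.mul_c, Cb.C_a, Cb.C_b, Cb.C_c] <;> ring
      rw [e]
      refine ⟨?_, ?_, by simp⟩
      · show v (x * (2 ^ m) ^ 2) = 1
        rw [map_mul, map_pow, h2m, hm, ← exp_nsmul, ← exp_add, ← exp_zero]
        congr 1
        simp only [nsmul_eq_mul]
        push_cast
        ring
      · show v (2 * t * (2 ^ m) ^ 2) < 1
        rw [map_mul, map_pow, h2m, h10, ← exp_nsmul, ← exp_add, ← exp_zero, exp_lt_exp]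
        simp only [nsmul_eq_mul]
        push_cast
        omega

end val

end Pool.Agent.H98.R
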