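import Pool.Agent.H98.R.Two
import Pool.Agent.H98.A.Gza

/-!
# Divisibility by two along the tower
-/

set_option autoImplicit false
set_option linter.unusedSectionVars false
set_option linter.unusedVariables false

open NumberField IsDedekindDomain WithZero WeierstrassCurve

namespace Pool.Agent.H98.R

open Pool.Agent.K7.H56
open Pool.Agent.K7.H56.P
open Pool.Agent.Y696
open Pool.Agent.K7.H70.SM
open Pool.Agent.K7.H56.M Pool.Agent.K7.H70.AS
open Pool.Agent.K7.H73.L3 (gz3)
open Pool.Agent.H98.B
open Pool.Agent.H98.Q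
open Pool.Agent.H98.A (gz_tow gz_all)
open Pool.Agent.K7.H70.TW (Ed)
open scoped Classical

/-- the automorphism of a quadratic extension -/
lemma exists_aut2 {k E : Type} [Field k] [NumberField k] [Field E] [NumberField E] [Algebra k E]
    (h2 : Module.finrank k E = 2) : ∃ σ : E ≃ₐ[k] E, (∀ x, σ (σ x) = x) ∧
      (∀ x : E, σ x = x → ∃ y : k, algebraMap k E y = x) := by
  have hg : IsGalois k E := gal2' h2
  have hc : Nat.card (E ≃ₐ[k] E) = 2 := by rw [IsGalois.card_aut_eq_finrank, h2]
  obtain ⟨σ, hσ, huniq⟩ := (Nat.card_eq_two_iff' (1 : E ≃ₐ[k] E)).1 hc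
  refine ⟨σ, fun x => ?_, fun x hx => ?_⟩
  · have h1 : σ * σ = 1 := by
      by_contra h
      have h2 := huniq (σ * σ) h
      exact hσ (mul_left_cancel (h2.trans (mul_one σ).symm))
    exact DFunLike.congr_fun h1 x
  · have h1 : x ∈ (⊥ : IntermediateField k E) := (IsGalois.mem_bot_iff_fixed x).2 fun τ => by
      by_cases h : τ = 1
      · rw [h]
        rfl
      · rw [huniq τ h]
        exact hx
    exact IntermediateField.mem_bot.1 h1

/-- **the tower** -/
theorem tw_tow {d : ℤ} (hd : Dd d) {F K : Type} [Field F] [NumberField F]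
    [IsCyclotomicExtension {3} ℚ F] [Field K] [NumberField K] [Algebra F K] [IsGalois F K] {r : ℕ}
    (hr : Module.finrank F K = 2 ^ r) (hG : Gd F K) (n : ℕ) :
    ∀ (T : Type) [Field T] [NumberField T] [Algebra F T], (T →ₐ[F] K) →
      Module.finrank F T = 2 ^ n → Pd d T → (Tw d F ↔ Tw d T) := by
  induction n with
  | zero =>
    intro T _ _ _ φ h1 hT
    have := cyc_one (F := F) (T := T) h1
    have hF : Pd d F := d_down (N := F) hd hT
    have hs : Function.Surjective (algebraMap F T) := by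
      rw [pow_zero] at h1
      intro x
      have h2 : x ∈ (⊥ : Subalgebra F T) := by
        have hfd : FiniteDimensional F T := Module.finite_of_finrank_pos (by rw [h1]; norm_num)
        rw [(Subalgebra.bot_eq_top_iff_finrank_eq_one (F := F) (E := T)).2 h1]
        exact Algebra.mem_top
      exact Algebra.mem_bot.1 h2
    exact ⟨tw_iso (gz3 T) (gz3 F) hd hF hT hs, tw_down (gz3 T) (gz3 F) hd hF hT⟩
  | succ m ih =>
    intro T _ _ _ φ h1 hT
    obtain ⟨N, h2, h3⟩ := exists_mid (K := K) h1 hr φ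
    have hGT : Gz T := gz_tow hr hG (m + 1) T φ h1
    have hGN : Gz N := gz_tow hr hG m N (φ.comp N.val) h2
    have hN : Pd d N := d_down (N := N) hd hT
    obtain ⟨w, hw⟩ := hGN.om
    obtain ⟨σ, hσ, hfix⟩ := exists_aut2 h3
    rw [ih N (φ.comp N.val) h2 hN]
    exact ⟨tw_up hGT hGN hd hN hT hw σ hσ hfix, tw_down hGT hGN hd hN hT⟩

/-- the rank of `y² = x³ + 16 d³` -/
theorem rank_of {d : ℤ} (hd : Dd d) {T : Type} [Field T] [NumberField T] (hT : Gz T) (hp : Pd d T) :
    (Tw d T → Module.finrank ℤ (Ed (d : T)).toAffine.Point = 0) ∧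
      (¬ Tw d T → Module.finrank ℤ (Ed (d : T)).toAffine.Point = 2) := by
  have hne : NeZero (d : T) := ⟨d_neF hd⟩
  refine ⟨fun h => ?_, fun h => ?_⟩
  · have hfin := fin_of_dbl (fgd T d hd) h
    rw [Module.finrank_eq_zero_iff_isTorsion]
    intro x
    exact ⟨⟨(addOrderOf x : ℤ), mem_nonZeroDivisors_of_ne_zero (by
      exact_mod_cast (addOrderOf_pos x).ne')⟩, by
        show (addOrderOf x : ℤ) • x = 0
        rw [natCast_zsmul]
        exact addOrderOf_nsmul_eq_zero x⟩
  · obtain ⟨w, hw⟩ := hT.om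
    unfold Tw at h
    push Not at h
    obtain ⟨P, hP⟩ := h
    rcases pt_cases P with rfl | ⟨x, y, hxy, rfl⟩
    · exact absurd (add_zero _).symm (hP 0)
    · have hx : vd hd hp x < 1 := by
        by_contra hcon
        push Not at hcon
        obtain ⟨R, hR⟩ := half_big hT hd hp hxy hcon
        exact hP R hR
      exact (rkTwo hT hd hp hw hxy hx).rank (fgd T d hd)

end Pool.Agent.H98.R
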