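import Pool.Agent.H98.Q.An
import Pool.Agent.H98.R.Twr
import Pool.Agent.H98.R.Frm
import Pool.Agent.H98.A.Main

/-!
# The main theorem for the primes congruent to two modulo three
-/

set_option autoImplicit false
set_option linter.unusedSectionVars false
set_option linter.unusedVariables false

open NumberField IsDedekindDomain WeierstrassCurve

namespace Pool.Agent.H98.R

open Pool.Agent.K7.H56
open Pool.Agent.K7.H56.P
open Pool.Agent.Y696
open Pool.Agent.K7.H70.SM
open Pool.Agent.K7.H56.M
open Pool.Agent.K7.H70.AS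
open Pool.Agent.H98.B
open Pool.Agent.H98.Q
open Pool.Agent.H98.A (gz_all vr_of fg_equiv fg_fin rank_fin)
open Pool.Agent.W189.NF (aV eV)
open Pool.Agent.K7.H70.TW (Ed fin_change)
open Pool.Agent.K7.H73.L3 (gz3)
open scoped Classical

/-- the points of an isomorphic curve -/
lemma iso_pts {F : Type} [Field F] [CharZero F] {t : F} (ht : t ≠ 0) {W : WeierstrassCurve F}
    {C : VariableChange F} (h : C • W = Ed t) :
    Nonempty ((Ed t).toAffine.Point ≃+ W.toAffine.Point) := by
  have h1 := vr_of C W
  rw [h] at h1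
  have : NeZero t := ⟨ht⟩
  exact ⟨h1.equiv Et_Δ⟩

/-- the condition over the base does not depend on the model -/
lemma tw_base {d : ℤ} (hd : Dd d) (F F' : Type) [Field F] [NumberField F]
    [IsCyclotomicExtension {3} ℚ F] [Field F'] [NumberField F'] [IsCyclotomicExtension {3} ℚ F']
    (h : Tw d F) : Tw d F' := by
  have e : F ≃ₐ[ℚ] F' := IsCyclotomicExtension.algEquiv {3} ℚ F F'
  let _ : Algebra F F' := (e : F →+* F').toAlgebra
  obtain ⟨ι'⟩ := exists_iota (N := F) (gz3 F).om
  have hp : Pd d F := pd_base hd F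
    (ι'.comp (RingEquiv.subringCongr RR_eis : Pool.Agent.Y688.RR →+* eis))
  obtain ⟨ι''⟩ := exists_iota (N := F') (gz3 F').om
  have hp' : Pd d F' := pd_base hd F'
    (ι''.comp (RingEquiv.subringCongr RR_eis : Pool.Agent.Y688.RR →+* eis))
  exact tw_iso (gz3 F') (gz3 F) hd hp hp' e.surjective h

/-- **The main theorem** -/
theorem main {d : ℤ} (hd : Dd d) {m0 : ℕ} (hm0 : 1 ≤ m0) (hB : BaseOrd d m0)
    {M0 L : Type} [Field M0] [NumberField M0] [IsCyclotomicExtension {3} ℚ M0] [Field L]
    [NumberField L] [Algebra M0 L] [IsGalois M0 L]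
    (hr : ∃ r : ℕ, Module.finrank M0 L = 2 ^ r) (hG : Gd M0 L)
    {k K : Type} [Field k] [NumberField k] [Field K] [NumberField K] [Algebra k K] [Algebra K L]
    {w : k} (hw : w ^ 2 + w + 1 = 0) (hK : Pd d K) (W : WeierstrassCurve k) (C : VariableChange K)
    (hC : C • W.map (algebraMap k K) = Ed (d : K)) :
    AddGroup.FG W.toAffine.Point ∧
      ((∃ C' : VariableChange k, C' • W = Ed (d : k)) →
        Module.finrank ℤ W.toAffine.Point = (if Tw d M0 then 0 else 2) ∧ Bsd W (2 * m0)) ∧
      ((¬ ∃ C' : VariableChange k, C' • W = Ed (d : k)) → Finite W.toAffine.Point ∧ Bsd W 0) := by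
  have hU : Unr2 L := by
    obtain ⟨r, hr'⟩ := hr
    exact ((gz3 M0).step hr' hG).two
  let _ : Algebra k L := ((algebraMap K L).comp (algebraMap k K)).toAlgebra
  have hst : IsScalarTower k K L := IsScalarTower.of_algebraMap_eq' rfl
  have hd0 : (d : k) ≠ 0 := d_neF hd
  obtain ⟨m, hm⟩ : ∃ m : ℕ, Module.finrank k K = 2 ^ m := by
    obtain ⟨r, hr'⟩ := hr
    have hM2 : Module.finrank ℚ M0 = 2 := by
      rw [IsCyclotomicExtension.finrank (n := 3) M0
        (Polynomial.cyclotomic.irreducible_rat (by norm_num))]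
      rfl
    have h1 : Module.finrank ℚ L = 2 ^ (r + 1) := by
      rw [← Module.finrank_mul_finrank ℚ M0 L, hM2, hr']
      ring
    have h2 : Module.finrank k K ∣ 2 ^ (r + 1) := by
      rw [← h1, ← Module.finrank_mul_finrank ℚ k L, ← Module.finrank_mul_finrank k K L]
      exact ⟨Module.finrank ℚ k * Module.finrank K L, by ring⟩
    obtain ⟨m, -, hm⟩ := (Nat.dvd_prime_pow Nat.prime_two).1 h2
    exact ⟨m, hm⟩
  obtain ⟨h4, δ, θ, hδ, hθ, C', hC'⟩ := form_d hm W hd0 C (by rw [map_intCast]; exact hC)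
  have ha : (2 * w + 1) ^ 2 = -3 := by linear_combination 4 * hw
  obtain ⟨hb, hBs⟩ := an_main hd hm0 hB hr hU hG ha hK hδ hθ
  have hW : W = C'⁻¹ • Ed ((d : k) * δ) := by rw [← hC', inv_smul_smul]
  have hBW : Bsd W (if IsSquare δ then 2 * m0 else 0) := by
    rw [hW]
    exact hBs.change (Pool.Agent.K7.H89.TW.c₄_twist ((d : k) * δ)) hb C'⁻¹
  have htriv := triv_iff hw W hd0 hδ C' hC'
  have hk5 : Pd d k := d_down (N := k) hd hK
  by_cases hsq : IsSquare δ
  · rw [if_pos hsq] at hBW
    obtain ⟨C2, hC2⟩ := htriv.2 hsq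
    obtain ⟨e⟩ := iso_pts hd0 hC2
    have hGz : Gz k := gz_all hr hG ha
    have hrk : Module.finrank ℤ W.toAffine.Point = (if Tw d M0 then 0 else 2) := by
      rw [← e.toIntLinearEquiv.finrank_eq]
      have hiff : Tw d M0 ↔ Tw d k := by
        obtain ⟨r, hr'⟩ := hr
        obtain ⟨f, hf⟩ := exists_alg (F0 := M0) (K := L) (M := k) ha
        let _ : Algebra M0 k := f.toAlgebra
        let φ : k →ₐ[M0] L :=
          { (algebraMap k L) with
            commutes' := fun x => by
              show algebraMap k L (f x) = algebraMap M0 L x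
              rw [← hf]
              rfl }
        have hst : IsScalarTower M0 k L := IsScalarTower.of_algebraMap_eq fun x => (φ.commutes x).symm
        have hdv : Module.finrank M0 k ∣ 2 ^ r := by
          rw [← hr', ← Module.finrank_mul_finrank M0 k L]
          exact Dvd.intro _ rfl
        obtain ⟨n, -, hn⟩ := (Nat.dvd_prime_pow Nat.prime_two).1 hdv
        exact tw_tow hd hr' hG n k φ hn hk5
      obtain ⟨h0, h2⟩ := rank_of hd hGz hk5
      split_ifs with h
      · exact h0 (hiff.1 h)
      · exact h2 fun h' => h (hiff.2 h')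
    exact ⟨fg_equiv e (fgd k d hd), fun _ => ⟨hrk, hBW⟩, fun h => absurd ⟨C2, hC2⟩ h⟩
  · rw [if_neg hsq] at hBW
    have hfin : Finite W.toAffine.Point := by
      set E := IntermediateField.adjoin k {θ} with hE
      have heE : θ ∈ E := IntermediateField.mem_adjoin_simple_self k θ
      set eE : E := ⟨θ, heE⟩ with heEd
      have heE2 : eE ^ 2 = algebraMap k E δ := Subtype.ext hθ
      have h2E : Module.finrank k E = 2 := by
        have hirr : Irreducible (Polynomial.X ^ 2 - Polynomial.C δ) := by
          rw [X_pow_sub_C_irreducible_iff_of_prime Nat.prime_two]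
          intro b hb
          exact hsq ⟨b, by rw [← hb, pow_two]⟩
        have hmin : minpoly k θ = Polynomial.X ^ 2 - Polynomial.C δ := by
          refine (minpoly.eq_of_irreducible_of_monic hirr ?_ (Polynomial.monic_X_pow_sub_C _ two_ne_zero)).symm
          rw [map_sub, map_pow, Polynomial.aeval_X, Polynomial.aeval_C, hθ, sub_self]
        have hint : _root_.IsIntegral k θ := Algebra.IsIntegral.isIntegral θ
        have h3 := IntermediateField.adjoin.finrank hint
        rw [hmin, Polynomial.natDegree_X_pow_sub_C] at h3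
        exact h3
      have hgE : IsGalois k E := gal2' h2E
      have hE5 : Pd d E := d_down (N := E) hd hK
      have haE : (algebraMap k E (2 * w + 1)) ^ 2 = -3 := by rw [← map_pow, ha, map_neg, map_ofNat]
      have hGz : Gz E := gz_all hr hG haE
      obtain ⟨σ, hσ⟩ : ∃ σ : E ≃ₐ[k] E, σ eE ≠ eE := by
        by_contra hcon
        push Not at hcon
        have h1 : eE ∈ (⊥ : IntermediateField k E) := (IsGalois.mem_bot_iff_fixed eE).2 hcon
        obtain ⟨c, hc⟩ := IntermediateField.mem_bot.1 h1
        apply hsq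
        refine ⟨c, (algebraMap k E).injective ?_⟩
        rw [map_mul, hc, ← pow_two, heE2]
      have hσ2 : σ eE = -eE := by
        have h1 : (σ eE) ^ 2 = eE ^ 2 := by rw [← map_pow, heE2, AlgEquiv.commutes]
        exact (sq_eq_sq_iff_eq_or_eq_neg.1 h1).resolve_left hσ
      have hf := fin_tw hGz hd hk5 hE5 hw σ hδ heE2 hσ2
      refine fin_change (RingHom.id k) W C' (V := Ed ((d : k) * δ)) ?_ ?_ hf
      · rw [WeierstrassCurve.map_id]
        exact hC'
      · have : NeZero ((d : k) * δ) := ⟨mul_ne_zero hd0 hδ⟩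
        exact Et_Δ
    exact ⟨fg_fin hfin, fun h => absurd (htriv.1 h) hsq, fun _ => ⟨hfin, hBW⟩⟩

end Pool.Agent.H98.R
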