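import Pool.Agent.H98.A.Cos
import Pool.Agent.H98.R.Crv
import Pool.Agent.H98.R.Sml
import Pool.Agent.H98.Q.Five

/-!
# The classes modulo two
-/

set_option autoImplicit false
set_option linter.unusedSectionVars false
set_option linter.unusedVariables false

open NumberField IsDedekindDomain WithZero

namespace Pool.Agent.H98.R

open Pool.Agent.Y696
open Pool.Agent.K7.H70.SM
open Pool.Agent.K7.H70.TW (Ed)
open Pool.Agent.H98.Q
open Pool.Agent.H98.A (val_one)
open scoped Classical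

section
variable {K : Type} [Field K] [NumberField K] {d : ℤ}

lemma no2 (hK : Gz K) (hd : Dd d) {a b : K} (h : b ^ 2 = a ^ 3 + 16 * (d : K) ^ 3) : b ≠ 0 := by
  rintro rfl
  have hd0 : (d : K) ≠ 0 := d_neF hd
  refine no_cube_of_two hK.two (-a / (2 * d)) ?_
  rw [div_pow, neg_pow]
  field_simp
  linear_combination h

/-- the valuation above `d` -/
noncomputable abbrev vd (hd : Dd d) (hp : Pd d K) : Valuation K ℤᵐ⁰ := (pd hd hp).valuation K

lemma vd_d (hd : Dd d) (hp : Pd d K) : vd hd hp (d : K) = exp (-1 : ℤ) := by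
  have h1 := HeightOneSpectrum.intValuation_singleton (pd hd hp) (r := (d : 𝓞 K)) (d_ne hd)
    (pd_ideal hd hp)
  rw [← h1, ← HeightOneSpectrum.valuation_of_algebraMap (K := K)]
  exact congrArg _ (map_intCast (algebraMap (𝓞 K) K) d).symm

lemma vd_two (hd : Dd d) (hp : Pd d K) : vd hd hp 2 = 1 := by
  have h1 : vd hd hp ((2 : ℕ) : K) = 1 := by
    refine val_one fun h => two_pd hd hp ?_
    exact_mod_cast h
  exact_mod_cast h1

lemma vd_three (hd : Dd d) (hp : Pd d K) : vd hd hp 3 = 1 := by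
  have h1 : vd hd hp ((3 : ℕ) : K) = 1 := by
    refine val_one fun h => three_pd hd hp ?_
    exact_mod_cast h
  exact_mod_cast h1

lemma val_d {v : HeightOneSpectrum (𝓞 K)} (h : (d : 𝓞 K) ∉ v.asIdeal) :
    v.valuation K (d : K) = 1 := by
  have e : algebraMap (𝓞 K) K (d : 𝓞 K) = (d : K) := map_intCast (algebraMap (𝓞 K) K) d
  rw [← e]
  refine le_antisymm (v.valuation_le_one _) ?_
  have h1 := (v.valuation_lt_one_iff_mem (K := K) (d : 𝓞 K)).not.2 h
  exact not_lt.1 h1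

/-- the Selmer condition -/
theorem pa_of (hK : Gz K) (hd : Dd d) (hp : Pd d K) {x y : K}
    (hxy : y ^ 2 = x ^ 3 + 16 * (d : K) ^ 3) (hx : 1 ≤ vd hd hp x) :
    PA (⟨x, 2 * d, 0⟩ : Cb K) := by
  have hy := no2 hK hd hxy
  have hN : (⟨x, 2 * d, 0⟩ : Cb K).N = y ^ 2 := by
    rw [hxy]
    simp [Cb.N]
    ring
  refine ⟨by rw [hN]; exact pow_ne_zero 2 hy, ⟨y, hN⟩, fun v hv => ?_, fun v hv => ?_⟩
  · have e2 : v.valuation K 2 = 1 := by
      have : v.valuation K ((2 : ℕ) : K) = 1 := val_one fun h => hv (by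
        have e : ((6 : ℕ) : 𝓞 K) = ((2 : ℕ) : 𝓞 K) * 3 := by push_cast; norm_num
        rw [e]
        exact Ideal.mul_mem_right _ _ h)
      exact_mod_cast this
    have e3 : v.valuation K 3 = 1 := by
      have : v.valuation K ((3 : ℕ) : K) = 1 := val_one fun h => hv (by
        have e : ((6 : ℕ) : 𝓞 K) = ((3 : ℕ) : 𝓞 K) * 2 := by push_cast; norm_num
        rw [e]
        exact Ideal.mul_mem_right _ _ h)
      exact_mod_cast this
    by_cases h : (d : 𝓞 K) ∈ v.asIdeal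
    · have hv5 := pd_uniq hd hp h
      subst hv5
      refine ev_big hxy e2 ?_ hx
      have := vd_d hd hp
      rw [this, ← exp_zero, exp_lt_exp]
      norm_num
    · exact ev_good hxy hy e2 e3 (val_d h)
  · refine lv_two hxy hy (hK.two v hv) (val_d fun h => ?_)
    obtain ⟨m, hm⟩ := hd.odd
    apply v.isPrime.ne_top
    rw [Ideal.eq_top_iff_one]
    have e : (1 : 𝓞 K) = (d : 𝓞 K) - ((2 : ℕ) : 𝓞 K) * (2 * m) := by
      rw [hm]
      push_cast
      ring
    rw [e]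
    exact Ideal.sub_mem _ h (Ideal.mul_mem_right _ _ hv)

/-- divisibility by two -/
theorem half_of [NeZero (d : K)] (hK : Gz K) (hd : Dd d) {x y : K}
    (hxy : y ^ 2 = x ^ 3 + 16 * (d : K) ^ 3) (hr : ∃ r : Cb K, (⟨x, 2 * d, 0⟩ : Cb K) = r * r) :
    ∃ R : (Ed (d : K)).toAffine.Point, pt hxy = R + R := by
  have hN : (⟨x, 2 * d, 0⟩ : Cb K).N = y ^ 2 := by
    rw [hxy]
    simp [Cb.N]
    ring
  obtain ⟨r, hr⟩ := hr
  have hNr : r.N ^ 2 = y ^ 2 := by
    rw [← hN, hr, Cb.N_mul, pow_two]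
  have key : ∀ r : Cb K, (⟨x, 2 * d, 0⟩ : Cb K) = r * r → r.N = y →
      ∃ R : (Ed (d : K)).toAffine.Point, pt hxy = R + R := by
    intro r hr hy
    have ha := congrArg Cb.a hr
    have hb := congrArg Cb.b hr
    have hc := congrArg Cb.c hr
    simp only [Cb.mul_a, Cb.mul_b, Cb.mul_c] at ha hb hc
    refine halve (u := r.a) (v := r.b) (w := r.c) hxy ?_ ?_ ?_ ?_ fun a b h => no2 hK hd h
    · rw [ha]
      ring
    · rw [hb]
      ring
    · linear_combination -hc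
    · rw [← hy]
      rfl
  rcases sq_eq_sq_iff_eq_or_eq_neg.1 hNr with h | h
  · exact key r hr h
  · exact key (-r) (by rw [neg_mul_neg]; exact hr) (by rw [Cb.N_neg, h, neg_neg])

/-- divisibility by two -/
theorem half_big [NeZero (d : K)] (hK : Gz K) (hd : Dd d) (hp : Pd d K) {x y : K}
    (hxy : y ^ 2 = x ^ 3 + 16 * (d : K) ^ 3) (hx : 1 ≤ vd hd hp x) :
    ∃ R : (Ed (d : K)).toAffine.Point, pt hxy = R + R :=
  half_of hK hd hxy (hK.sq _ (pa_of hK hd hp hxy hx))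

/-- no elements of order two -/
lemma no_tor [NeZero (d : K)] (hK : Gz K) (hd : Dd d) (P : (Ed (d : K)).toAffine.Point)
    (h : P + P = 0) : P = 0 := by
  rcases pt_cases P with rfl | ⟨x, y, hxy, rfl⟩
  · rfl
  · exfalso
    have h1 := eq_neg_of_add_eq_zero_left h
    rw [neg_pt, pt_inj] at h1
    refine no2 hK hd hxy ?_
    have h2 : (2 : K) ≠ 0 := two_ne_zero
    apply mul_left_cancel₀ h2
    linear_combination h1.2

/-- the doubles have `x` not small -/
lemma dbl_big [NeZero (d : K)] (hK : Gz K) (hd : Dd d) (hp : Pd d K) {x y : K}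
    (hxy : y ^ 2 = x ^ 3 + 16 * (d : K) ^ 3) (h : ∃ R, pt hxy = R + R) : 1 ≤ vd hd hp x := by
  obtain ⟨R, hR⟩ := h
  rcases pt_cases R with rfl | ⟨X, Y, hXY, rfl⟩
  · rw [add_zero] at hR
    exact absurd hR (pt_ne _)
  · have hY := no2 hK hd hXY
    obtain ⟨l, x₃, y₃, h₃, e1, e2, e3, e4, e5⟩ := add_pt hXY hXY (by
      rintro ⟨-, h⟩
      apply hY
      have h2 : (2 : K) ≠ 0 := two_ne_zero
      apply mul_left_cancel₀ h2
      linear_combination h)
    rw [e5, pt_inj] at hR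
    rw [hR.1, e3]
    exact big_dbl (vd_d hd hp) (vd_two hd hp) (vd_three hd hp) hXY hY e2

/-- adding two small points in the same class -/
lemma add_small [NeZero (d : K)] (hK : Gz K) (hd : Dd d) (hp : Pd d K) {x y x₀ y₀ : K}
    (hxy : y ^ 2 = x ^ 3 + 16 * (d : K) ^ 3) (hx : vd hd hp x < 1)
    (h₀ : y₀ ^ 2 = x₀ ^ 3 + 16 * (d : K) ^ 3) (hx₀ : vd hd hp x₀ < 1)
    (hxz : vd hd hp (x - x₀) ≤ exp (-2 : ℤ)) : ∃ R, pt hxy + pt h₀ = R + R := by
  by_cases hne : x = x₀ ∧ y = -y₀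
  · refine ⟨0, ?_⟩
    rw [add_zero]
    exact add_zero_iff _ _ hne
  · obtain ⟨l, x₃, y₃, h₃, e1, e2, e3, e4, e5⟩ := add_pt hxy h₀ hne
    rw [e5]
    refine half_big hK hd hp h₃ ?_
    rw [e3]
    exact big_add (vd_d hd hp) (vd_two hd hp) (vd_three hd hp) hxy hx h₀ hx₀ hxz e2

lemma w3 {w : K} (hw : w ^ 2 + w + 1 = 0) : w ^ 3 = 1 := by linear_combination (w - 1) * hw

lemma w6 {w : K} (hw : w ^ 2 + w + 1 = 0) : (w ^ 2) ^ 3 = 1 := by
  linear_combination (w ^ 3 + 1) * (w - 1) * hw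

lemma mul_root {x y z : K} (hxy : y ^ 2 = x ^ 3 + 16 * (d : K) ^ 3) (hz : z ^ 3 = 1) :
    y ^ 2 = (z * x) ^ 3 + 16 * (d : K) ^ 3 := by
  rw [mul_pow, hz, one_mul]
  exact hxy

lemma v_root {hd : Dd d} {hp : Pd d K} {z : K} (hz : z ^ 3 = 1) (x : K) :
    vd hd hp (z * x) = vd hd hp x := by
  have hz1 : vd hd hp z = 1 := by
    have h2 := congrArg (vd hd hp) hz
    rw [map_pow, map_one] at h2
    refine le_antisymm ((pow_le_one_iff three_ne_zero).1 h2.le) ?_
    exact (one_le_pow_iff_of_nonneg zero_le three_ne_zero).1 h2.ge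
  rw [map_mul, hz1, one_mul]

open Pool.Agent.H98.A (RkTwo)

/-- **the classes modulo two** -/
theorem rkTwo [NeZero (d : K)] (hK : Gz K) (hd : Dd d) (hp : Pd d K) {w : K}
    (hw : w ^ 2 + w + 1 = 0) {x₀ y₀ : K} (h₀ : y₀ ^ 2 = x₀ ^ 3 + 16 * (d : K) ^ 3)
    (hx₀ : vd hd hp x₀ < 1) :
    RkTwo (Ed (d : K)).toAffine.Point (pt h₀) (pt (mul_root h₀ (w3 hw)))
      (pt (mul_root h₀ (w6 hw))) where
  tor := no_tor hK hd
  cos := by
    intro P
    rcases pt_cases P with rfl | ⟨x, y, hxy, rfl⟩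
    · exact Or.inl ⟨0, (add_zero _).symm⟩
    · rcases lt_or_ge (vd hd hp x) 1 with hx | hx
      · right
        rcases small_root (vd_d hd hp) (vd_two hd hp) hw hxy hx h₀ hx₀ with h | h | h
        · exact Or.inl (add_small hK hd hp hxy hx h₀ hx₀ h)
        · exact Or.inr (Or.inl (add_small hK hd hp hxy hx _ (by rwa [v_root (w3 hw)]) h))
        · exact Or.inr (Or.inr (add_small hK hd hp hxy hx _ (by rwa [v_root (w6 hw)]) h))
      · exact Or.inl (half_big hK hd hp hxy hx)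
  n0 := fun h => absurd (dbl_big hK hd hp _ h) (not_le.2 hx₀)
  n1 := fun h => absurd (dbl_big hK hd hp _ h) (not_le.2 (by rwa [v_root (w3 hw)]))
  n2 := fun h => absurd (dbl_big hK hd hp _ h) (not_le.2 (by rwa [v_root (w6 hw)]))
  sum := by
    have hw1 : w ≠ 1 := by
      rintro rfl
      have h3 : (3 : K) ≠ 0 := three_ne_zero
      apply h3
      linear_combination hw
    have hx0 : x₀ ≠ 0 := by
      rintro rfl
      have := small_x (vd_d hd hp) (vd_two hd hp) h₀ hx₀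
      rw [map_zero] at this
      exact exp_ne_zero this.symm
    have h : pt h₀ + pt (mul_root h₀ (w3 hw)) = -pt (mul_root h₀ (w6 hw)) := by
      rw [neg_pt]
      refine add_pt' (l := 0) _ _ _ ?_ ?_ ?_ ?_ ?_
      · rintro ⟨h, -⟩
        apply hw1
        apply mul_right_cancel₀ hx0
        rw [one_mul, ← h]
      · ring
      · linear_combination (-x₀ ^ 2) * hw
      · linear_combination x₀ * hw
      · ring
    rw [h, neg_add_cancel]

lemma fgd (K : Type) [Field K] [NumberField K] (d : ℤ) (hd : Dd d) :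
    AddGroup.FG (Ed (d : K)).toAffine.Point := by
  have h := Pool.Agent.H64R2.DDMWK.mwk K 0 (16 * d ^ 3) (by
    have := hd.ne
    have h3 : d ^ 3 ≠ 0 := pow_ne_zero 3 this
    have h6 : (16 * d ^ 3) ^ 2 ≠ 0 := by positivity
    intro h0
    apply h6
    nlinarith)
  refine Pool.Agent.H64R2.DDMWK.fg_of_eq ?_ h
  show (⟨0, 0, 0, ((0 : ℤ) : K), ((16 * d ^ 3 : ℤ) : K)⟩ : WeierstrassCurve K) =
    ⟨0, 0, 0, 0, 16 * (d : K) ^ 3⟩
  push_cast
  rfl

end

end Pool.Agent.H98.R
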