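import Pool.Agent.H98.R.Ant2

/-!
# Divisibility by two along a quadratic extension
-/

set_option autoImplicit false
set_option linter.unusedSectionVars false
set_option linter.unusedVariables false

open NumberField IsDedekindDomain WithZero WeierstrassCurve

namespace Pool.Agent.H98.R

open Pool.Agent.Y696
open Pool.Agent.K7.H70.SM
open Pool.Agent.H98.Q
open Pool.Agent.K7.H70.TW (Ed)
open scoped Classical

/-- all the points are divisible by two -/
def Tw (d : ℤ) (T : Type) [Field T] [NumberField T] : Prop :=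
  ∀ P : (Ed (d : T)).toAffine.Point, ∃ R, P = R + R

section grp
variable {A : Type} [AddCommGroup A]

/-- the anti-invariant elements of a divisible kind -/
theorem fin_div (hfg : AddGroup.FG A) (tor : ∀ P : A, P + P = 0 → P = 0) (σ : A →+ A)
    (hdiv : ∀ P : A, σ P = -P → ∃ R, P = R + R) :
    (∀ P : A, σ P = -P → ∃ R, σ R = -R ∧ P = R + R) ∧ Finite {P : A // σ P = -P} := by
  have h1 : ∀ P : A, σ P = -P → ∃ R, σ R = -R ∧ P = R + R := by
    intro P hP
    obtain ⟨R, hR⟩ := hdiv P hP
    refine ⟨R, ?_, hR⟩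
    have h2 : (R + σ R) + (R + σ R) = 0 := by
      have h3 := congrArg σ hR
      rw [map_add] at h3
      have : (R + σ R) + (R + σ R) = (R + R) + (σ R + σ R) := by abel
      rw [this, ← hR, ← h3, hP, add_neg_cancel]
    have h3 := tor _ h2
    rw [add_comm] at h3
    exact eq_neg_of_add_eq_zero_left h3
  refine ⟨h1, ?_⟩
  let H : AddSubgroup A := (σ + AddMonoidHom.id A).ker
  have hmem : ∀ P : A, P ∈ H ↔ σ P + P = 0 := fun P => Iff.rfl
  have hdH : ∀ P : H, ∃ R : H, P = 2 • R := by
    rintro ⟨P, hP⟩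
    rw [hmem] at hP
    obtain ⟨R, hR, hPR⟩ := h1 P (eq_neg_of_add_eq_zero_left hP)
    refine ⟨⟨R, by rw [hmem, hR, neg_add_cancel]⟩, Subtype.ext ?_⟩
    show P = ((2 : ℕ) • (⟨R, _⟩ : H) : H).1
    rw [AddSubgroup.coe_nsmul, two_nsmul, ← hPR]
  have hfin := (Pool.Agent.Y784.E3.fin_of_div
    (Pool.Agent.H64R2.DDMWK.fg_of_inj H.subtype Subtype.val_injective hfg) hdH).1
  refine Finite.of_injective (fun P : {P : A // σ P = -P} => (⟨P.1, by
    rw [hmem, P.2, neg_add_cancel]⟩ : H)) ?_
  intro P P' hPP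
  exact Subtype.ext (congrArg (fun x : H => x.1) hPP)

/-- a finite group without elements of order two is divisible by two -/
lemma div_of_fin (hf : Finite A) (tor : ∀ P : A, P + P = 0 → P = 0) (P : A) : ∃ R, P = R + R := by
  have hinj : Function.Injective (fun R : A => R + R) := by
    intro R S h
    simp only at h
    have h1 : (R - S) + (R - S) = 0 := by
      have : (R - S) + (R - S) = (R + R) - (S + S) := by abel
      rw [this, h, sub_self]
    exact sub_eq_zero.1 (tor _ h1)
  obtain ⟨R, hR⟩ := Finite.surjective_of_injective hinj P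
  exact ⟨R, hR.symm⟩

/-- a finitely generated group divisible by two is finite -/
lemma fin_of_dbl (hfg : AddGroup.FG A) (h : ∀ P : A, ∃ R, P = R + R) : Finite A :=
  (Pool.Agent.Y784.E3.fin_of_div hfg fun P => by
    obtain ⟨R, hR⟩ := h P
    exact ⟨R, by rw [two_nsmul, ← hR]⟩).1

end grp

section ext
variable {k E : Type} [Field k] [NumberField k] [Field E] [NumberField E] [Algebra k E] {d : ℤ}

lemma base_E (d : ℤ) : (Ed (d : k)).baseChange E = Ed (d : E) := by
  ext
  · simp
  · simp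
  · simp
  · simp
  · show algebraMap k E (16 * (d : k) ^ 3) = 16 * (d : E) ^ 3
    rw [map_mul, map_pow, map_intCast, map_ofNat]

/-- the facts over the larger field, for a curve equal to `y² = x³ + 16 d³` -/
lemma facts (hE : Gz E) (hd : Dd d) (hp : Pd d E) : ∀ V : WeierstrassCurve E, V = Ed (d : E) →
    AddGroup.FG V.toAffine.Point ∧ V.Δ ≠ 0 ∧
      (∀ x y : E, V.toAffine.Equation x y ↔ y ^ 2 = x ^ 3 + 16 * (d : E) ^ 3) ∧
      (∀ x y : E, V.toAffine.negY x y = -y) ∧
      (∀ P : V.toAffine.Point, P + P = 0 → P = 0) ∧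
      (∀ (x y : E) (h : V.toAffine.Nonsingular x y), 1 ≤ vd hd hp x →
        ∃ R : V.toAffine.Point, .some x y h = R + R) ∧
      (Tw d E ↔ ∀ P : V.toAffine.Point, ∃ R, P = R + R) := by
  rintro V rfl
  have : NeZero (d : E) := ⟨d_neF hd⟩
  exact ⟨fgd E d hd, Et_Δ, fun x y => eqn_iff, negY_eq, no_tor hE hd,
    fun x y h hx => half_big hE hd hp (eqn_iff.1 h.1) hx, Iff.rfl⟩

/-- the map of a divisible anti-invariant point -/
theorem anti_div (hE : Gz E) (hd : Dd d) (hpk : Pd d k) (hp : Pd d E) {w : k}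
    (hw : w ^ 2 + w + 1 = 0) (σ : E ≃ₐ[k] E) :
    (∀ P : ((Ed (d : k)).baseChange E).toAffine.Point,
      Affine.Point.map (W' := Ed (d : k)) (σ : E →ₐ[k] E) P = -P → ∃ R, P = R + R) := by
  obtain ⟨hfg, hΔ, heq, hneg, htor, hbig, htw⟩ := facts hE hd hp _ (base_E (k := k) (E := E) d)
  obtain ⟨w0, hw0⟩ : ∃ w0 : 𝓞 k, (w0 : k) = w := by
    have hint : _root_.IsIntegral ℤ w := by
      refine _root_.IsIntegral.of_pow (n := 3) (by norm_num) ?_
      rw [w3 hw]
      exact isIntegral_one
    exact ⟨⟨w, hint⟩, rfl⟩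
  have hw0' : w0 ^ 2 + w0 + 1 = 0 := by
    apply RingOfIntegers.ext
    show algebraMap (𝓞 k) k (w0 ^ 2 + w0 + 1) = algebraMap (𝓞 k) k 0
    rw [map_add, map_add, map_pow, map_one, map_zero]
    show (w0 : k) ^ 2 + (w0 : k) + 1 = 0
    rw [hw0]
    exact hw
  intro P hP
  match P, hP with
  | .zero, _ => exact ⟨0, (add_zero (0 : ((Ed (d : k)).baseChange E).toAffine.Point)).symm⟩
  | .some X Y h, hP =>
    rw [Affine.Point.map_some, Affine.Point.neg_some, Affine.Point.some.injEq, hneg] at hP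
    exact hbig X Y h (anti_big hE hd hpk hp hw0' σ ((heq X Y).1 h.1) hP.1 hP.2)

/-- **the twists have finitely many points** -/
theorem fin_tw (hE : Gz E) (hd : Dd d) (hpk : Pd d k) (hp : Pd d E) {w : k}
    (hw : w ^ 2 + w + 1 = 0) (σ : E ≃ₐ[k] E) {δ : k} (hδ : δ ≠ 0)
    {e : E} (he : e ^ 2 = algebraMap k E δ) (hσ : σ e = -e) :
    Finite (Ed ((d : k) * δ)).toAffine.Point := by
  obtain ⟨hfg, hΔ, heq, hneg, htor, hbig, htw⟩ := facts hE hd hp _ (base_E (k := k) (E := E) d)
  have hfin := (fin_div hfg htor (Affine.Point.map (W' := Ed (d : k)) (σ : E →ₐ[k] E))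
    (anti_div hE hd hpk hp hw σ)).2
  have he0 : e ≠ 0 := by
    rintro rfl
    rw [zero_pow two_ne_zero] at he
    exact hδ ((map_eq_zero _).1 he.symm)
  have hdE : algebraMap k E δ ≠ 0 := (map_ne_zero _).2 hδ
  have hmap : ∀ x y : k, (Ed ((d : k) * δ)).toAffine.Equation x y →
      ((Ed (d : k)).baseChange E).toAffine.Nonsingular (algebraMap k E (x / δ))
        (algebraMap k E (y / δ) / e) := by
    intro x y hxy
    refine (Affine.equation_iff_nonsingular_of_Δ_ne_zero hΔ).1 ((heq _ _).2 ?_)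
    rw [Affine.equation_iff] at hxy
    simp only [zero_mul, add_zero] at hxy
    have h1 := congrArg (algebraMap k E) hxy
    simp only [map_add, map_mul, map_pow, map_ofNat, map_intCast] at h1
    simp only [map_div₀]
    rw [← he] at h1 ⊢
    field_simp
    linear_combination h1
  refine Finite.of_injective (β := Option {P : ((Ed (d : k)).baseChange E).toAffine.Point //
      Affine.Point.map (W' := Ed (d : k)) (σ : E →ₐ[k] E) P = -P})
    (fun P => match P with
      | .zero => none
      | .some x y h => some ⟨.some _ _ (hmap x y h.1), ?_⟩) ?_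
  · rw [Affine.Point.map_some, Affine.Point.neg_some, Affine.Point.some.injEq]
    refine ⟨AlgHom.commutes (σ : E →ₐ[k] E) _, ?_⟩
    have hσ' : (σ : E →ₐ[k] E) e = -e := hσ
    rw [hneg, map_div₀, AlgHom.commutes, hσ', div_neg]
  · intro P P' hP
    match P, P' with
    | .zero, .zero => rfl
    | .zero, .some _ _ _ => simp at hP
    | .some _ _ _, .zero => simp at hP
    | .some x y h, .some x' y' h' =>
      simp only [Option.some.injEq, Subtype.mk.injEq, Affine.Point.some.injEq] at hP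
      obtain ⟨hx, hy⟩ := hP
      have e1 := (algebraMap k E).injective hx
      have e2 := (algebraMap k E).injective ((div_left_inj' he0).1 hy)
      have e3 : x = x' := (div_left_inj' hδ).1 e1
      have e4 : y = y' := (div_left_inj' hδ).1 e2
      subst e3
      subst e4
      rfl

/-- the points fixed by the automorphism -/
lemma desc_pt (hE : Gz E) (hk : Gz k) (hd : Dd d) (hpk : Pd d k) (hp : Pd d E)
    (P : ((Ed (d : k)).baseChange E).toAffine.Point)
    (hP : ∀ (x y : E) (h : ((Ed (d : k)).baseChange E).toAffine.Nonsingular x y), P = .some x y h →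
      (∃ x0 : k, algebraMap k E x0 = x) ∧ (∃ y0 : k, algebraMap k E y0 = y)) :
    ∃ Q : ((Ed (d : k)).baseChange k).toAffine.Point,
      Affine.Point.map (W' := Ed (d : k)) (Algebra.ofId k E) Q = P := by
  obtain ⟨hfg, hΔ, heq, hneg, htor, hbig, htw⟩ := facts hE hd hp _ (base_E (k := k) (E := E) d)
  obtain ⟨hfg', hΔ', heq', hneg', htor', hbig', htw'⟩ := facts hk hd hpk _ (base_E (k := k) (E := k) d)
  match P, hP with
  | .zero, _ => exact ⟨0, map_zero _⟩
  | .some x y h, hP =>
    obtain ⟨⟨x0, hx0⟩, y0, hy0⟩ := hP x y h rfl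
    have h0 : y0 ^ 2 = x0 ^ 3 + 16 * (d : k) ^ 3 := by
      apply (algebraMap k E).injective
      rw [map_pow, map_add, map_mul, map_pow, map_pow, map_intCast, map_ofNat, hx0, hy0]
      exact (heq x y).1 h.1
    have hns := (Affine.equation_iff_nonsingular_of_Δ_ne_zero hΔ').1 ((heq' x0 y0).2 h0)
    refine ⟨.some x0 y0 hns, ?_⟩
    rw [Affine.Point.map_some, Affine.Point.some.injEq]
    exact ⟨hx0, hy0⟩

/-- divisibility by two goes down -/
theorem tw_down (hE : Gz E) (hk : Gz k) (hd : Dd d) (hpk : Pd d k) (hp : Pd d E) (h : Tw d E) :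
    Tw d k := by
  obtain ⟨hfg, hΔ, heq, hneg, htor, hbig, htw⟩ := facts hE hd hp _ (base_E (k := k) (E := E) d)
  obtain ⟨hfg', hΔ', heq', hneg', htor', hbig', htw'⟩ := facts hk hd hpk _ (base_E (k := k) (E := k) d)
  rw [htw'] 
  have hfin := fin_of_dbl hfg (htw.1 h)
  have hfin' : Finite ((Ed (d : k)).baseChange k).toAffine.Point :=
    Finite.of_injective _ (Affine.Point.map_injective (W' := Ed (d : k)) (f := Algebra.ofId k E))
  exact div_of_fin hfin' htor'

/-- divisibility by two goes up, if all the points are defined over the smaller field -/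
theorem tw_iso (hE : Gz E) (hk : Gz k) (hd : Dd d) (hpk : Pd d k) (hp : Pd d E)
    (hs : Function.Surjective (algebraMap k E)) (h : Tw d k) : Tw d E := by
  obtain ⟨hfg, hΔ, heq, hneg, htor, hbig, htw⟩ := facts hE hd hp _ (base_E (k := k) (E := E) d)
  obtain ⟨hfg', hΔ', heq', hneg', htor', hbig', htw'⟩ := facts hk hd hpk _ (base_E (k := k) (E := k) d)
  rw [htw]
  intro P
  obtain ⟨Q, rfl⟩ := desc_pt hE hk hd hpk hp P fun x y h _ => ⟨hs x, hs y⟩
  obtain ⟨R, rfl⟩ := htw'.1 h Q
  exact ⟨_, map_add _ R R⟩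

/-- **divisibility by two goes up a quadratic extension** -/
theorem tw_up (hE : Gz E) (hk : Gz k) (hd : Dd d) (hpk : Pd d k) (hp : Pd d E) {w : k}
    (hw : w ^ 2 + w + 1 = 0) (σ : E ≃ₐ[k] E) (hσσ : ∀ x, σ (σ x) = x)
    (hfix : ∀ x : E, σ x = x → ∃ y : k, algebraMap k E y = x) (h : Tw d k) : Tw d E := by
  obtain ⟨hfg, hΔ, heq, hneg, htor, hbig, htw⟩ := facts hE hd hp _ (base_E (k := k) (E := E) d)
  obtain ⟨hfg', hΔ', heq', hneg', htor', hbig', htw'⟩ := facts hk hd hpk _ (base_E (k := k) (E := k) d)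
  rw [htw]
  set τ := Affine.Point.map (W' := Ed (d : k)) (σ : E →ₐ[k] E) with hτ
  have hττ : ∀ P, τ (τ P) = P := by
    intro P
    match P with
    | .zero =>
      show τ (τ 0) = 0
      rw [map_zero, map_zero]
    | .some x y h =>
      rw [hτ, Affine.Point.map_some, Affine.Point.map_some, Affine.Point.some.injEq]
      exact ⟨hσσ x, hσσ y⟩
  have hanti := anti_div hE hd hpk hp hw σ
  intro P
  obtain ⟨Q, hQ⟩ := desc_pt hE hk hd hpk hp (P + τ P) (by
    intro x y h hxy
    have h1 : τ (P + τ P) = P + τ P := by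
      rw [map_add, hττ, add_comm]
    rw [hxy, hτ, Affine.Point.map_some, Affine.Point.some.injEq] at h1
    exact ⟨hfix x h1.1, hfix y h1.2⟩)
  obtain ⟨R, hR⟩ := htw'.1 h Q
  obtain ⟨S, hS⟩ := htw'.1 h R
  set ι := Affine.Point.map (W' := Ed (d : k)) (Algebra.ofId k E) with hι
  have hτι : ∀ Z, τ (ι Z) = ι Z := by
    intro Z
    match Z with
    | .zero =>
      show τ (ι 0) = ι 0
      rw [map_zero, map_zero]
    | .some x y h =>
      rw [hτ, hι, Affine.Point.map_some, Affine.Point.map_some, Affine.Point.some.injEq]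
      exact ⟨σ.commutes x, σ.commutes y⟩
  have h2 : ι R + ι R = P + τ P := by rw [← map_add, ← hR, hQ]
  obtain ⟨T, hT⟩ := hanti (P - ι R) (by
    show τ (P - ι R) = -(P - ι R)
    rw [map_sub, hτι]
    have : τ P - ι R = (P + τ P) - P - ι R := by abel
    rw [this, ← h2]
    abel)
  refine ⟨T + ι S, ?_⟩
  have h3 : P = (P - ι R) + ι R := by abel
  rw [h3, hT, hS, map_add]
  abel

end ext

end Pool.Agent.H98.R
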